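import Pool.Agent.helper64.EWDefs

/-!
# Closure properties of bounded-depth circuits
-/

namespace Pool.Agent.helper64

variable {V : Type*}

theorem IsAC0.mono {M M' : ℕ} (h0 : 0 < M) (h : M ≤ M') :
    ∀ (d : ℕ) (f : SimpleGraph V → Prop), IsAC0 M d f → IsAC0 M' d f := by
  intro d
  induction d with
  | zero => intro f hf; exact hf
  | succ d ih =>
    rintro f ⟨g, hg, hf⟩
    refine ⟨fun i => g ⟨min (i : ℕ) (M - 1), by omega⟩, fun i => ih _ (hg _), ?_⟩
    rcases hf with hf | hf
    · left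
      intro G
      rw [hf G]
      constructor
      · rintro ⟨i, hi⟩
        refine ⟨⟨i, lt_of_lt_of_le i.2 h⟩, ?_⟩
        have : (⟨min (i : ℕ) (M - 1), by omega⟩ : Fin M) = i := by
          apply Fin.ext
          have := i.2
          show min (i : ℕ) (M - 1) = i
          omega
        show g ⟨min (i : ℕ) (M - 1), _⟩ G
        rw [this]
        exact hi
      · rintro ⟨i, hi⟩
        exact ⟨_, hi⟩
    · right
      intro G
      rw [hf G]
      constructor
      · intro H i
        exact H _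
      · intro H i
        have h1 := H ⟨i, lt_of_lt_of_le i.2 h⟩
        have : (⟨min (i : ℕ) (M - 1), by omega⟩ : Fin M) = i := by
          apply Fin.ext
          have := i.2
          show min (i : ℕ) (M - 1) = i
          omega
        change g ⟨min (i : ℕ) (M - 1), _⟩ G at h1
        rw [this] at h1
        exact h1

theorem IsAC0.succ {M : ℕ} (h0 : 0 < M) {d : ℕ} {f : SimpleGraph V → Prop} (hf : IsAC0 M d f) :
    IsAC0 M (d + 1) f :=
  ⟨fun _ => f, fun _ => hf, Or.inl fun _ => ⟨fun h => ⟨⟨0, h0⟩, h⟩, fun ⟨_, h⟩ => h⟩⟩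

theorem IsAC0.add {M : ℕ} (h0 : 0 < M) {d : ℕ} {f : SimpleGraph V → Prop} (hf : IsAC0 M d f) :
    ∀ e : ℕ, IsAC0 M (d + e) f
  | 0 => hf
  | e + 1 => (IsAC0.add h0 hf e).succ h0

/-- A list of `M` elements in which every element of a small nonempty type occurs. -/
theorem exists_enum (ι : Type*) [Fintype ι] [Nonempty ι] {M : ℕ} (h : Fintype.card ι ≤ M) :
    ∃ e : Fin M → ι, Function.Surjective e := by
  classical
  have e1 := Fintype.equivFin ι
  have hpos : 0 < Fintype.card ι := Fintype.card_pos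
  refine ⟨fun i => e1.symm ⟨min (i : ℕ) (Fintype.card ι - 1), by omega⟩, ?_⟩
  intro x
  have hx := (e1 x).2
  refine ⟨⟨e1 x, by omega⟩, ?_⟩
  have : (⟨min ((e1 x : ℕ)) (Fintype.card ι - 1), by omega⟩ : Fin (Fintype.card ι)) = e1 x := by
    apply Fin.ext
    show min ((e1 x : ℕ)) (Fintype.card ι - 1) = e1 x
    omega
  show e1.symm _ = x
  rw [this, Equiv.symm_apply_apply]

theorem IsAC0.exists {ι : Type*} [Fintype ι] [Nonempty ι] {M : ℕ} (h : Fintype.card ι ≤ M) {d : ℕ}
    {g : ι → SimpleGraph V → Prop} (hg : ∀ i, IsAC0 M d (g i)) :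
    IsAC0 M (d + 1) (fun G => ∃ i, g i G) := by
  obtain ⟨e, he⟩ := exists_enum ι h
  exact ⟨fun i => g (e i), fun i => hg _, Or.inl fun G => he.exists⟩

theorem IsAC0.forall {ι : Type*} [Fintype ι] [Nonempty ι] {M : ℕ} (h : Fintype.card ι ≤ M) {d : ℕ}
    {g : ι → SimpleGraph V → Prop} (hg : ∀ i, IsAC0 M d (g i)) :
    IsAC0 M (d + 1) (fun G => ∀ i, g i G) := by
  obtain ⟨e, he⟩ := exists_enum ι h
  exact ⟨fun i => g (e i), fun i => hg _, Or.inr fun G => he.forall⟩

theorem IsAC0.and {M : ℕ} (h : 2 ≤ M) {d : ℕ} {f g : SimpleGraph V → Prop} (hf : IsAC0 M d f)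
    (hg : IsAC0 M d g) : IsAC0 M (d + 1) (fun G => f G ∧ g G) := by
  have h1 := IsAC0.forall (ι := Bool) (by simpa using h) (g := fun b => if b then f else g)
    (d := d) (M := M) (by intro b; cases b <;> simpa)
  convert h1 using 2 with G
  simp [and_comm]

end Pool.Agent.helper64
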