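import Pool.Agent.helper64.Depth

/-!
# A planted clique which bounded-depth circuits do not see
-/

open Finset

namespace Pool.Agent.helper64

set_option linter.unusedSectionVars false

section

variable {V : Type} [Fintype V] [DecidableEq V]

/-- The pairs of distinct elements of `K`. -/
def prs (K : Finset V) : Finset (Sym2 V) := K.sym2.filter (fun e => ¬ e.IsDiag)

theorem mem_prs {K : Finset V} {u v : V} : s(u, v) ∈ prs K ↔ u ∈ K ∧ v ∈ K ∧ u ≠ v := by
  simp [prs, and_assoc]

theorem card_prs (K : Finset V) : (prs K).card = K.card.choose 2 := by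
  rw [← Sym2.card_image_offDiag]
  congr 1
  ext e
  induction e using Sym2.ind with
  | _ u v =>
    rw [mem_prs]
    simp only [Finset.mem_image, Finset.mem_offDiag, Prod.exists, Function.uncurry_apply_pair,
      Sym2.eq_iff]
    constructor
    · rintro ⟨h1, h2, h3⟩
      exact ⟨u, v, ⟨h1, h2, h3⟩, Or.inl ⟨rfl, rfl⟩⟩
    · rintro ⟨a, b, ⟨h1, h2, h3⟩, ⟨rfl, rfl⟩ | ⟨rfl, rfl⟩⟩
      · exact ⟨h1, h2, h3⟩
      · exact ⟨h2, h1, h3.symm⟩

theorem prs_inter (K A : Finset V) : prs K ∩ prs A = prs (K ∩ A) := by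
  ext e
  induction e using Sym2.ind with
  | _ u v =>
    rw [Finset.mem_inter, mem_prs, mem_prs, mem_prs, Finset.mem_inter, Finset.mem_inter]
    tauto

/-- Number of pairs of `K` not inside `A`. -/
theorem card_prs_sdiff {K A : Finset V} {k m : ℕ} (hK : K.card = k) (hm : 2 * m + 1 ≤ k) :
    m * (K \ A).card ≤ (prs K \ prs A).card := by
  have h1 : (prs K \ prs A).card = (prs K).card - (prs (K ∩ A)).card := by
    rw [Finset.card_sdiff, Finset.inter_comm, prs_inter]
  rw [h1, card_prs, card_prs, hK]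
  have h2 : (K ∩ A).card + (K \ A).card = k := by
    rw [← hK, Finset.card_inter_add_card_sdiff]
  set j := (K \ A).card
  set i := (K ∩ A).card
  have h3 : i.choose 2 + m * j ≤ k.choose 2 := by
    have h4 : ((i.choose 2 + m * j : ℕ) : ℚ) ≤ ((k.choose 2 : ℕ) : ℚ) := by
      push_cast
      rw [Nat.cast_choose_two, Nat.cast_choose_two, ← h2]
      push_cast
      have h5 : (2:ℚ) * m + 1 ≤ i + j := by
        have : 2 * m + 1 ≤ i + j := by omega
        exact_mod_cast this
      have hi : (0:ℚ) ≤ i := Nat.cast_nonneg i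
      have hj : (0:ℚ) ≤ j := Nat.cast_nonneg j
      have h6 : (2:ℚ) * m * j ≤ (i + j - 1) * j := by
        refine mul_le_mul_of_nonneg_right ?_ hj
        linarith
      have h7 : (0:ℚ) ≤ i * j := mul_nonneg hi hj
      linarith
    exact_mod_cast h4
  omega

/-- Union bound over the possible other cliques. -/
theorem clique_union (A : Finset V) {k m : ℕ} (hA : A.card = k) (hm : 2 * m + 1 ≤ k) {β : ℝ}
    (b0 : 0 ≤ β) (b1 : β ≤ 1) :
    Ep β (fun B : Sym2 V → Bool => ind (∃ K : Finset V, K.card = k ∧ K ≠ A ∧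
      ∀ e ∈ prs K \ prs A, B e = true)) ≤
      ∑ j ∈ Finset.Icc 1 k, ((Fintype.card V : ℝ) ^ 2 * β ^ m) ^ j := by
  set 𝒦 : Finset (Finset V) :=
    (Finset.powersetCard k (Finset.univ : Finset V)).filter (fun K => K ≠ A) with h𝒦
  have h1 : Ep β (fun B : Sym2 V → Bool => ind (∃ K : Finset V, K.card = k ∧ K ≠ A ∧
      ∀ e ∈ prs K \ prs A, B e = true)) ≤
      ∑ K ∈ 𝒦, β ^ (prs K \ prs A).card := by
    calc _ ≤ Ep β (fun B : Sym2 V → Bool => ∑ K ∈ 𝒦,
          ind (∀ e ∈ prs K \ prs A, B e = true)) := by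
          refine Ep_mono b0 b1 fun B => ?_
          by_cases h : ∃ K : Finset V, K.card = k ∧ K ≠ A ∧
            ∀ e ∈ prs K \ prs A, B e = true
          · obtain ⟨K, hK1, hK2, hK3⟩ := h
            have hmem : K ∈ 𝒦 := by
              rw [h𝒦, Finset.mem_filter, Finset.mem_powersetCard]
              exact ⟨⟨Finset.subset_univ _, hK1⟩, hK2⟩
            refine le_trans (le_of_eq ?_) (Finset.single_le_sum (f := fun K : Finset V =>
              ind (∀ e ∈ prs K \ prs A, B e = true)) (fun K _ => ind_nonneg _) hmem)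
            rw [ind_pos ⟨K, hK1, hK2, hK3⟩, ind_pos hK3]
          · rw [ind_neg h]
            exact Finset.sum_nonneg fun K _ => ind_nonneg _
      _ = ∑ K ∈ 𝒦, β ^ (prs K \ prs A).card := by
          rw [Ep_sum]
          refine Finset.sum_congr rfl fun K _ => ?_
          rw [Ep_cylinder β (prs K \ prs A) (fun _ => true), Finset.prod_const]
          simp [ber]
  refine h1.trans ?_
  have hmaps : ∀ K ∈ 𝒦, (K \ A).card ∈ Finset.Icc 1 k := by
    intro K hK
    rw [h𝒦, Finset.mem_filter, Finset.mem_powersetCard] at hK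
    rw [Finset.mem_Icc]
    constructor
    · rw [Nat.one_le_iff_ne_zero, Ne, Finset.card_eq_zero, Finset.sdiff_eq_empty_iff_subset]
      intro hsub
      exact hK.2 (Finset.eq_of_subset_of_card_le hsub (by rw [hA, hK.1.2]))
    · rw [← hK.1.2]
      exact Finset.card_le_card Finset.sdiff_subset
  rw [← Finset.sum_fiberwise_of_maps_to hmaps]
  refine Finset.sum_le_sum fun j _ => ?_
  have hcount : (𝒦.filter (fun K => (K \ A).card = j)).card ≤ (Fintype.card V ^ 2) ^ j := by
    have hinj : (𝒦.filter (fun K => (K \ A).card = j)).card ≤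
        (Finset.powersetCard j (Finset.univ : Finset V) ×ˢ
          Finset.powersetCard j (Finset.univ : Finset V)).card := by
      refine Finset.card_le_card_of_injOn (fun K => (A \ K, K \ A)) ?_ ?_
      · intro K hK
        rw [Finset.mem_coe, Finset.mem_filter, h𝒦, Finset.mem_filter,
          Finset.mem_powersetCard] at hK
        rw [Finset.mem_coe, Finset.mem_product, Finset.mem_powersetCard, Finset.mem_powersetCard]
        refine ⟨⟨Finset.subset_univ _, ?_⟩, Finset.subset_univ _, hK.2⟩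
        rw [← hK.2]
        exact Finset.card_sdiff_comm (by rw [hA, hK.1.1.2])
      · intro K hK K' hK' heq
        simp only [Prod.mk.injEq] at heq
        have hrec : ∀ K : Finset V, K = (A \ (A \ K)) ∪ (K \ A) := by
          intro K
          ext v
          simp only [Finset.mem_union, Finset.mem_sdiff]
          tauto
        rw [hrec K, hrec K', heq.1, heq.2]
    refine hinj.trans ?_
    rw [Finset.card_product, Finset.card_powersetCard, Finset.card_univ, ← pow_mul, mul_comm 2 j,
      pow_mul, sq]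
    exact Nat.mul_le_mul (Nat.choose_le_pow _ _) (Nat.choose_le_pow _ _)
  calc ∑ K ∈ 𝒦.filter (fun K => (K \ A).card = j), β ^ (prs K \ prs A).card
      ≤ ∑ K ∈ 𝒦.filter (fun K => (K \ A).card = j), β ^ (m * j) := by
        refine Finset.sum_le_sum fun K hK => ?_
        rw [Finset.mem_filter, h𝒦, Finset.mem_filter, Finset.mem_powersetCard] at hK
        apply pow_le_pow_of_le_one b0 b1
        rw [← hK.2]
        exact card_prs_sdiff hK.1.1.2 hm
    _ = ((𝒦.filter (fun K => (K \ A).card = j)).card : ℝ) * β ^ (m * j) := by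
        rw [Finset.sum_const, nsmul_eq_mul]
    _ ≤ (((Fintype.card V : ℝ) ^ 2) ^ j) * β ^ (m * j) := by
        refine mul_le_mul_of_nonneg_right ?_ (by positivity)
        exact_mod_cast hcount
    _ = ((Fintype.card V : ℝ) ^ 2 * β ^ m) ^ j := by
        rw [mul_pow, ← pow_mul β m j]

/-- Many vertices stay alive. -/
theorem few_alive (k : ℕ) {β p : ℝ} (hp0 : 0 ≤ p) (hp1 : p ≤ 1) :
    Pr (V := V) β p (fun S _ => S.card < k) ≤ 2 ^ k * (1 - p / 2) ^ (Fintype.card V) := by
  unfold Pr
  simp_rw [Ep_const]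
  calc Ep p (fun s : V → Bool => ind ((al s).card < k))
      ≤ Ep p (fun s : V → Bool => 2 ^ k * ∏ v, (if s v then (1 / 2 : ℝ) else 1)) := by
        refine Ep_mono hp0 hp1 fun s => ?_
        have h1 : ∏ v, (if s v then (1 / 2 : ℝ) else 1) = (1 / 2 : ℝ) ^ (al s).card := by
          rw [Finset.prod_ite, Finset.prod_const, Finset.prod_const_one, mul_one]
          rfl
        rw [h1]
        by_cases h : (al s).card < k
        · rw [ind_pos h]
          calc (1:ℝ) = 2 ^ k * (1 / 2 : ℝ) ^ k := by rw [← mul_pow]; norm_num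
            _ ≤ 2 ^ k * (1 / 2 : ℝ) ^ (al s).card := by
                refine mul_le_mul_of_nonneg_left ?_ (by positivity)
                exact pow_le_pow_of_le_one (by norm_num) (by norm_num) h.le
        · rw [ind_neg h]; positivity
    _ = 2 ^ k * (1 - p / 2) ^ (Fintype.card V) := by
        rw [Ep_smul, Ep_prod_coord p (fun _ b => if b then (1 / 2 : ℝ) else 1)]
        congr 1
        rw [Finset.prod_const, Finset.card_univ]
        congr 1
        simp
        ring

end

theorem planted (d c : ℕ) : ∃ s K0 : ℕ, ∀ n k : ℕ, K0 ≤ k → k ≤ c * Nat.log 2 n →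
    ∀ M : ℕ, M ≤ 2 ^ (c * Nat.log 2 n) →
    ∀ (κ : Type) [Fintype κ], Fintype.card κ ≤ 2 ^ (c * Nat.log 2 n) →
    ∀ f : κ → SimpleGraph (Fin n) → Prop, (∀ j, IsAC0 M d (f j)) →
    ∃ (G : SimpleGraph (Fin n)) (A : Finset (Fin n)) (Q : κ → Finset (Fin n)),
      G.IsNClique k A ∧ (∀ j, (Q j).card ≤ s) ∧
      ∀ u ∈ A, ∀ v ∈ A, u ≠ v → (G.deleteEdges {s(u, v)}).CliqueFree k ∧
        ∀ j, s(u, v) ∉ (Q j).sym2 → (f j G ↔ f j (G.deleteEdges {s(u, v)})) := by
  obtain ⟨s, L1, D1, hs⟩ := depth_junta d (c + 1) c 4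
  obtain ⟨L2, hL2⟩ := exists_sq_le_two_pow' (100 * (c + 1)) 4
  refine ⟨s, c * (L1 + L2 + 100 + 2 * D1) + 16 * D1 + 3, ?_⟩
  intro n k hkK hkL M hM κ _ hκ f hf
  classical
  set L := Nat.log 2 n with hLdef
  have hcpos : 0 < c := by
    rcases Nat.eq_zero_or_pos c with h | h
    · rw [h] at hkL hkK; omega
    · exact h
  have hL : L1 + L2 + 100 + 2 * D1 ≤ L := by
    have : c * (L1 + L2 + 100 + 2 * D1) ≤ c * L := by omega
    exact Nat.le_of_mul_le_mul_left this hcpos
  have hn0 : n ≠ 0 := by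
    intro h
    rw [h] at hLdef
    simp at hLdef
    omega
  have hn1 : 2 ^ L ≤ n := Nat.pow_log_le_self 2 hn0
  have hn2 : n < 2 ^ (L + 1) := Nat.lt_pow_succ_log_self (by norm_num) n
  -- parameters
  set m := (k - 1) / 2 with hm
  have hmk : 2 * m + 1 ≤ k := by omega
  have hmD : 8 * D1 + 1 ≤ m := by omega
  set b := 4 * L / m + 1 with hb
  have hbpos : 1 ≤ b := Nat.le_add_left 1 _
  have hbm : 4 * L ≤ b * m := by
    have h1 := Nat.div_add_mod (4 * L) m
    have h2 := Nat.mod_lt (4 * L) (show 0 < m by omega)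
    have h3 : b * m = m * (4 * L / m) + m := by rw [hb]; ring
    rw [h3]
    omega
  have hbD : D1 * b ≤ L := by
    have h1 : m * (4 * L / m) ≤ 4 * L := Nat.mul_div_le _ _
    have h2 : (8 * D1) * (4 * L / m) ≤ m * (4 * L / m) := Nat.mul_le_mul_right _ (by omega)
    have h3 : D1 * b = D1 * (4 * L / m) + D1 := by rw [hb]; ring
    have h4 : (8 * D1) * (4 * L / m) = 8 * (D1 * (4 * L / m)) := by ring
    have h5 : 2 * D1 ≤ L := le_trans (Nat.le_add_left _ _) hL
    generalize D1 * (4 * L / m) = y at h3 h4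
    generalize m * (4 * L / m) = z at h1 h2
    rw [h4] at h2
    rw [h3]
    omega
  set a := L / 2 with ha
  set p : ℝ := (1 / 2 : ℝ) ^ a with hp
  have hp0 : 0 ≤ p := by positivity
  have hp1 : p ≤ 1 := pow_le_one₀ (by norm_num) (by norm_num)
  set β : ℝ := (1 / 2 : ℝ) ^ b with hβ
  have hβ0 : 0 ≤ β := by positivity
  have hβ1 : β ≤ 1 := pow_le_one₀ (by norm_num) (by norm_num)
  have hLa : L ≤ 4 * a := by omega
  have hLb : L ≤ 4 * (L - a - 1) := by omega
  have hsq1 := hL2 L (by omega) (L - a - 1) hLb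
  have hsq2 := hL2 L (by omega) L (by omega)
  have hbig : 4 * (c * L) + 4 ≤ (100 * (c + 1) * L) ^ 2 := by
    have h1 : 1 ≤ L := by omega
    have h2 : 1 ≤ 100 * (c + 1) * L := by nlinarith
    calc 4 * (c * L) + 4 ≤ 100 * (c + 1) * L := by nlinarith
      _ ≤ (100 * (c + 1) * L) ^ 2 := Nat.le_self_pow two_ne_zero _
  -- the three bad events
  set bad1 : Finset (Fin n) → (Sym2 (Fin n) → Bool) → Prop := fun S B =>
    ∃ j ∈ (Finset.univ : Finset κ), ¬ IsJ s (rst S B (fun x => f j (toG x))) with hbad1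
  set bad2 : Finset (Fin n) → (Sym2 (Fin n) → Bool) → Prop := fun S _ =>
    S.card < k with hbad2
  -- choice of A
  have hchoice : ∃ 𝒜 : Finset (Fin n) → Finset (Fin n), ∀ S, ¬ S.card < k →
      𝒜 S ⊆ S ∧ (𝒜 S).card = k := by
    have : ∀ S : Finset (Fin n), ∃ A : Finset (Fin n), ¬ S.card < k →
        A ⊆ S ∧ A.card = k := by
      intro S
      by_cases h : S.card < k
      · exact ⟨∅, fun h' => absurd h h'⟩
      · obtain ⟨A, hA, hAc⟩ := Finset.exists_subset_card_eq (not_lt.1 h)
        exact ⟨A, fun _ => ⟨hA, hAc⟩⟩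
    choose 𝒜 h𝒜 using this
    exact ⟨𝒜, h𝒜⟩
  obtain ⟨𝒜, h𝒜⟩ := hchoice
  set bad3 : Finset (Fin n) → (Sym2 (Fin n) → Bool) → Prop := fun S B =>
    ¬ S.card < k ∧ ∃ K : Finset (Fin n), K.card = k ∧ K ≠ 𝒜 S ∧
      ∀ e ∈ prs K \ prs (𝒜 S), B e = true with hbad3
  have hb1 : Pr β p bad1 ≤ 1 / 4 := by
    refine (Pr_exists hβ0 hβ1 hp0 hp1 _ _).trans ?_
    refine (Finset.sum_le_sum fun j _ =>
      hs L (by omega) a b hLa hbpos hbD _ M hM (f j) (hf j)).trans ?_
    rw [Finset.sum_const, nsmul_eq_mul, Finset.card_univ]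
    have e : (c + 1) * L = c * L + L := by ring
    rw [e, pow_add, ← mul_assoc]
    have : (Fintype.card κ : ℝ) * (1 / 2 : ℝ) ^ (c * L) ≤ 1 := by
      calc (Fintype.card κ : ℝ) * (1 / 2 : ℝ) ^ (c * L) ≤ 2 ^ (c * L) * (1 / 2 : ℝ) ^ (c * L) := by
            refine mul_le_mul_of_nonneg_right ?_ (by positivity)
            exact_mod_cast hκ
        _ = 1 := by rw [← mul_pow]; norm_num
    calc _ ≤ 1 * (1 / 2 : ℝ) ^ L := mul_le_mul_of_nonneg_right this (by positivity)
      _ ≤ 1 * (1 / 2 : ℝ) ^ 2 := by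
          refine mul_le_mul_of_nonneg_left ?_ (by norm_num)
          exact pow_le_pow_of_le_one (by norm_num) (by norm_num) (by omega)
      _ = 1 / 4 := by norm_num
  have hb2 : Pr β p bad2 ≤ 1 / 4 := by
    refine (few_alive (V := Fin n) k hp0 hp1).trans ?_
    rw [Fintype.card_fin]
    have h1 : (1 - p / 2) ^ n ≤ (1 / 2 : ℝ) ^ (2 ^ (L - a - 1)) := by
      have h0 : (1 - p / 2) ^ n ≤ (1 - p / 2) ^ (2 ^ L) :=
        pow_le_pow_of_le_one (by linarith) (by linarith) hn1
      refine h0.trans ?_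
      have h2 : 1 - p / 2 = 1 - (1 / 2 : ℝ) ^ (a + 1) := by rw [hp, pow_succ]; ring
      have h3 : 2 ^ L = 2 ^ (a + 1) * 2 ^ (L - a - 1) := by
        rw [← pow_add]; congr 1; omega
      rw [h2, h3]
      exact half_pow_sub_le _ _
    have h4 : k + 2 ≤ 2 ^ (L - a - 1) := by
      refine le_trans ?_ (hbig.trans hsq1)
      omega
    calc (2:ℝ) ^ k * (1 - p / 2) ^ n
        ≤ 2 ^ k * (1 / 2 : ℝ) ^ (k + 2) := by
          refine mul_le_mul_of_nonneg_left (h1.trans ?_) (by positivity)
          exact pow_le_pow_of_le_one (by norm_num) (by norm_num) h4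
      _ = 1 / 4 := by
          rw [pow_add (1 / 2 : ℝ) k 2, ← mul_assoc, ← mul_pow]; norm_num
  have hb3 : Pr β p bad3 ≤ 1 / 4 := by
    unfold Pr
    have h1 : ∀ s : Fin n → Bool, Ep β (fun B : Sym2 (Fin n) → Bool =>
        ind (bad3 (al s) B)) ≤ 1 / 4 := by
      intro s
      by_cases hcard : (al s).card < k
      · have : (fun B : Sym2 (Fin n) → Bool => ind (bad3 (al s) B)) = fun _ => 0 := by
          funext B
          apply ind_neg
          rintro ⟨h, -⟩
          exact h hcard
        rw [this, Ep_const]; norm_num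
      · obtain ⟨-, hAc⟩ := h𝒜 _ hcard
        have h3 : Ep β (fun B : Sym2 (Fin n) → Bool => ind (bad3 (al s) B)) ≤
            ∑ j ∈ Finset.Icc 1 k, ((Fintype.card (Fin n) : ℝ) ^ 2 * β ^ m) ^ j := by
          refine le_trans ?_ (clique_union (𝒜 (al s)) hAc hmk hβ0 hβ1)
          refine Ep_mono hβ0 hβ1 fun B => ind_mono ?_
          rintro ⟨-, K, hK1, hK2, hK3⟩
          exact ⟨K, hK1, hK2, hK3⟩
        refine h3.trans ?_
        rw [Fintype.card_fin]
        have h4 : (n : ℝ) ^ 2 * β ^ m ≤ (1 / 2) ^ L := by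
          have hnR : (n : ℝ) ≤ 2 ^ (L + 1) := by exact_mod_cast hn2.le
          have h5 : (n : ℝ) ^ 2 ≤ 2 ^ (2 * L + 2) := by
            calc (n : ℝ) ^ 2 ≤ (2 ^ (L + 1)) ^ 2 := pow_le_pow_left₀ (Nat.cast_nonneg _) hnR 2
              _ = 2 ^ (2 * L + 2) := by rw [← pow_mul]; congr 1; ring
          have h6 : β ^ m ≤ (1 / 2 : ℝ) ^ (4 * L) := by
            rw [hβ, ← pow_mul]
            exact pow_le_pow_of_le_one (by norm_num) (by norm_num) hbm
          calc (n : ℝ) ^ 2 * β ^ m ≤ 2 ^ (2 * L + 2) * (1 / 2 : ℝ) ^ (4 * L) :=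
                mul_le_mul h5 h6 (by positivity) (by positivity)
            _ = (1 / 2 : ℝ) ^ (2 * L - 2) := by
                have : 4 * L = (2 * L + 2) + (2 * L - 2) := by omega
                rw [this, pow_add (1 / 2 : ℝ), ← mul_assoc, ← mul_pow]; norm_num
            _ ≤ (1 / 2) ^ L := pow_le_pow_of_le_one (by norm_num) (by norm_num) (by omega)
        calc ∑ j ∈ Finset.Icc 1 k, ((n : ℝ) ^ 2 * β ^ m) ^ j
            ≤ ∑ j ∈ Finset.Icc 1 k, (1 / 2 : ℝ) ^ L := by
              refine Finset.sum_le_sum fun j hj => ?_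
              rw [Finset.mem_Icc] at hj
              calc ((n : ℝ) ^ 2 * β ^ m) ^ j ≤ ((1 / 2 : ℝ) ^ L) ^ j :=
                    pow_le_pow_left₀ (by positivity) h4 j
                _ ≤ ((1 / 2 : ℝ) ^ L) ^ 1 :=
                    pow_le_pow_of_le_one (by positivity)
                      (pow_le_one₀ (by norm_num) (by norm_num)) hj.1
                _ = (1 / 2 : ℝ) ^ L := pow_one _
          _ = (k : ℝ) * (1 / 2 : ℝ) ^ L := by
              rw [Finset.sum_const, Nat.card_Icc, nsmul_eq_mul, Nat.add_sub_cancel]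
          _ ≤ 1 / 4 := by
              have h5 : 4 * k ≤ 2 ^ L := by
                refine le_trans ?_ (hbig.trans hsq2)
                omega
              have h6 : (4:ℝ) * (k : ℝ) ≤ 2 ^ L := by exact_mod_cast h5
              have h7 : (2:ℝ) ^ L * (1 / 2 : ℝ) ^ L = 1 := by rw [← mul_pow]; norm_num
              have h8 : (0:ℝ) < (1 / 2 : ℝ) ^ L := by positivity
              nlinarith
    calc Ep p (fun s : Fin n → Bool => Ep β (fun B : Sym2 (Fin n) → Bool =>
        ind (bad3 (al s) B))) ≤ Ep p (fun _ => (1 / 4 : ℝ)) := Ep_mono hp0 hp1 h1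
      _ = 1 / 4 := Ep_const _ _
  -- a good outcome exists
  have hgood : ∃ S B, ¬ (bad1 S B ∨ (bad2 S B ∨ bad3 S B)) := by
    by_contra hcon
    push Not at hcon
    have h1 : (1:ℝ) ≤ Pr β p (fun S B => bad1 S B ∨ (bad2 S B ∨ bad3 S B)) := by
      have : Pr (V := Fin n) β p (fun S B => bad1 S B ∨ (bad2 S B ∨ bad3 S B)) = 1 := by
        unfold Pr
        have h2 : ∀ (s : Fin n → Bool) (B : Sym2 (Fin n) → Bool),
            ind (bad1 (al s) B ∨ (bad2 (al s) B ∨ bad3 (al s) B)) = 1 :=
          fun s B => ind_pos (hcon _ _)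
        simp_rw [h2, Ep_const]
      rw [this]
    have h2 := Pr_or hβ0 hβ1 hp0 hp1 bad1 (fun S B => bad2 S B ∨ bad3 S B)
    have h3 := Pr_or hβ0 hβ1 hp0 hp1 bad2 bad3
    linarith
  obtain ⟨S, B, hSB⟩ := hgood
  push Not at hSB
  obtain ⟨hg1, hg2, hg3⟩ := hSB
  have hScard : ¬ S.card < k := hg2
  obtain ⟨hAS, hAc⟩ := h𝒜 S hScard
  set A := 𝒜 S with hA
  have hJ : ∀ j, IsJ s (rst S B (fun x => f j (toG x))) := by
    intro j
    by_contra hcon
    exact hg1 ⟨j, Finset.mem_univ j, hcon⟩
  choose Q hQ hQdep using hJ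
  -- the graph with the planted clique
  set xA : Sym2 (Fin n) → Bool := fun e => if e ∈ prs A then true else B e with hxA
  have hprsS : ∀ e ∈ prs A, e ∈ S.sym2 := by
    intro e he
    exact Finset.sym2_mono hAS (Finset.mem_filter.1 he).1
  refine ⟨toG xA, A, Q, ?_, hQ, ?_⟩
  · constructor
    · intro u hu v hv huv
      rw [toG_adj]
      refine ⟨?_, huv⟩
      have : s(u, v) ∈ prs A := mem_prs.2 ⟨hu, hv, huv⟩
      simp [hxA, this]
    · exact hAc
  · intro u hu v hv huv
    have huvA : s(u, v) ∈ prs A := mem_prs.2 ⟨hu, hv, huv⟩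
    set x' : Sym2 (Fin n) → Bool := fun e => if e = s(u, v) then false else xA e with hx'
    have hdel : (toG xA).deleteEdges {s(u, v)} = toG x' := by
      ext a b
      rw [SimpleGraph.deleteEdges_adj, toG_adj, toG_adj, Set.mem_singleton_iff]
      by_cases h : s(a, b) = s(u, v)
      · simp [hx', h]
      · simp [hx', h]
    rw [hdel]
    constructor
    · intro K hK
      by_cases hKA : K = A
      · have h1 := hK.isClique
        rw [hKA] at h1
        have h2 : (toG x').Adj u v := h1 hu hv huv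
        rw [toG_adj] at h2
        simp [hx'] at h2
      · apply hg3
        refine ⟨hScard, K, hK.card_eq, hKA, ?_⟩
        intro e he
        rw [Finset.mem_sdiff] at he
        obtain ⟨heK, heA⟩ := he
        induction e using Sym2.ind with
        | _ a b =>
          obtain ⟨ha', hb', hab⟩ := mem_prs.1 heK
          have h2 : (toG x').Adj a b := hK.isClique ha' hb' hab
          rw [toG_adj] at h2
          have h3 : s(a, b) ≠ s(u, v) := fun h => heA (by rw [h]; exact huvA)
          have h4 := h2.1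
          simp only [hx', h3, if_false, hxA] at h4
          rw [if_neg heA] at h4
          exact h4
    · intro j hj
      have h1 : mrg S.sym2 xA B = xA := by
        funext e
        unfold mrg
        by_cases he : e ∈ S.sym2
        · simp [he]
        · have : e ∉ prs A := fun h => he (hprsS e h)
          simp [he, hxA, this]
      have h2 : mrg S.sym2 x' B = x' := by
        funext e
        unfold mrg
        by_cases he : e ∈ S.sym2
        · simp [he]
        · have h3 : e ∉ prs A := fun h => he (hprsS e h)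
          have h4 : e ≠ s(u, v) := fun h => h3 (by rw [h]; exact huvA)
          simp [he, hx', hxA, h3, h4]
      have h3 := hQdep j xA x' (by
        intro e he
        have : e ≠ s(u, v) := fun h => hj (by rw [← h]; exact he)
        simp [hx', this])
      unfold rst at h3
      rw [h1, h2] at h3
      have h4 : f j (toG xA) = f j (toG x') := h3
      rw [h4]

end Pool.Agent.helper64
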