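import Mathlib

/-!
# Bounded-depth reductions from `p-CLIQUE` to `p-MC(Σ₁)`: definitions

The reductions considered here are nonuniform `AC⁰` reductions: every symbol of the output (a finite
relational structure together with an existential first-order sentence) is computed from the
adjacency matrix of the input graph by a circuit of constant depth with unbounded fan-in gates.
-/

namespace Pool.Agent.helper64

/-- `IsAC0 M d f`: the property `f` of graphs on the vertex set `V` is computed by a circuit of
depth `d` whose gates are OR and AND gates of fan-in `M` (inputs of a gate may be repeated), and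
whose inputs are the literals `u ~ v` and `u ≁ v` for vertices `u`, `v`. -/
def IsAC0 {V : Type*} (M : ℕ) : ℕ → (SimpleGraph V → Prop) → Prop
  | 0, f => ∃ u v : V, (∀ G, f G ↔ G.Adj u v) ∨ (∀ G, f G ↔ ¬ G.Adj u v)
  | d + 1, f => ∃ g : Fin M → SimpleGraph V → Prop, (∀ i, IsAC0 M d (g i)) ∧
      ((∀ G, f G ↔ ∃ i, g i G) ∨ (∀ G, f G ↔ ∀ i, g i G))

/-- The length of a first-order formula: the number of its symbols (parentheses not counted; for
relational vocabularies, where all terms are variables). -/
def len {L : FirstOrder.Language.{0, 0}} {α : Type} : ∀ {n : ℕ}, L.BoundedFormula α n → ℕ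
  | _, .falsum => 1
  | _, .equal _ _ => 3
  | _, .rel (l := a) _ _ => a + 1
  | _, .imp φ ψ => len φ + len ψ + 1
  | _, .all φ => len φ + 1

/-- The structure for the relational vocabulary `L` with universe `D ⊆ {0, …, N-1}`, whose relations
are the restrictions of the given relations `h` on `{0, …, N-1}` to `D`. -/
def mkStr {L : FirstOrder.Language.{0, 0}} (hL : L.IsRelational) {N : ℕ} (D : Set (Fin N))
    (h : ∀ a : ℕ, L.Relations a → (Fin a → Fin N) → Prop) : L.Structure D where
  funMap := fun {a} f => ((hL a).false f).elim
  RelMap := fun {a} R t => h a R (fun i => (t i : Fin N))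

/-- The relations given by a list of `M` records: the record with number `j` is empty or consists of
a relation symbol and of entries; it says that the tuple of its entries is in the relation. -/
def listed {L : FirstOrder.Language.{0, 0}} {N M : ℕ} (symb : Fin M → Option (Σ a : ℕ, L.Relations a))
    (entry : Fin M → ℕ → Fin N) (a : ℕ) (R : L.Relations a) (t : Fin a → Fin N) : Prop :=
  ∃ j, symb j = some ⟨a, R⟩ ∧ ∀ p : Fin a, entry j p = t p

/-- A reduction, computed by circuits of depth `d` and fan-in `M`, from the clique problem (is there
a clique of `k` vertices in a graph on `n` vertices?) to the model checking problem for `Σ₁`. -/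
structure BoundedDepthReduction (n k d M ℓ : ℕ) where
  /-- A relational vocabulary with at most `M` symbols, all of arity at most `M`. (If the vocabulary
  of the structure `A(G)` depends on `G`, take all symbols which may occur, and interpret the
  symbols which are not in use by the empty relation.) -/
  L : FirstOrder.Language.{0, 0}
  relational : L.IsRelational
  symbols_finite : Finite (Σ a : ℕ, L.Relations a)
  symbols_size : Nat.card (Σ a : ℕ, L.Relations a) ≤ M
  arity_le : ∀ a : ℕ, L.Relations a → a ≤ M
  /-- The universes are subsets of `{0, …, N-1}`. -/
  N : ℕ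
  univ_size : N ≤ M
  /-- The universe of the structure `A(G)`. -/
  univ : SimpleGraph (Fin n) → Set (Fin N)
  /-- The relations of `A(G)` are given by a list of at most `M` tuples: the symbol of the `j`-th
  record (`none` if the record is empty) ... -/
  symb : SimpleGraph (Fin n) → Fin M → Option (Σ a : ℕ, L.Relations a)
  /-- ... and the entries of the `j`-th record. -/
  entry : SimpleGraph (Fin n) → Fin M → ℕ → Fin N
  /-- The sentence `φ(G)` put out by the reduction. -/
  sent : SimpleGraph (Fin n) → L.Sentence
  /-- A word of length `ℓ` over the alphabet `{0, …, M-1}` which encodes the sentence `φ(G)`. -/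
  word : SimpleGraph (Fin n) → Fin ℓ → Fin M
  /-- The word determines the sentence. -/
  sent_of_word : ∀ G G', word G = word G' → sent G = sent G'
  /-- The sentence is a `Σ₁`-sentence ... -/
  existential : ∀ G, (sent G).IsExistential
  /-- ... of length at most `ℓ`. -/
  len_le : ∀ G, len (sent G) ≤ ℓ
  /-- All parts of the output are computed by circuits of depth `d` and fan-in `M`. -/
  univ_ac0 : ∀ x, IsAC0 M d (fun G => x ∈ univ G)
  symb_ac0 : ∀ j σ, IsAC0 M d (fun G => symb G j = σ)
  entry_ac0 : ∀ j p x, IsAC0 M d (fun G => entry G j p = x)
  word_ac0 : ∀ i b, IsAC0 M d (fun G => word G i = b)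
  /-- Correctness of the reduction: `G` has a clique of `k` vertices iff `A(G) ⊨ φ(G)`. -/
  correct : ∀ G : SimpleGraph (Fin n), ¬ G.CliqueFree k ↔
    @FirstOrder.Language.Sentence.Realize L (univ G)
      (mkStr relational (univ G) (listed (symb G) (entry G))) (sent G)

end Pool.Agent.helper64
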