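import Pool.Agent.helper64.Junta
import Pool.Agent.helper64.EWDefs

/-!
# Functions of graphs computed by bounded-depth circuits become vertex juntas
-/

open Finset

namespace Pool.Agent.helper64

set_option linter.unusedSectionVars false

/-- The graph coded by a `0/1` function on the pairs. -/
def toG {V : Type*} (x : Sym2 V → Bool) : SimpleGraph V := SimpleGraph.fromEdgeSet {e | x e = true}

theorem toG_adj {V : Type*} (x : Sym2 V → Bool) (u v : V) :
    (toG x).Adj u v ↔ x s(u, v) = true ∧ u ≠ v := by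
  unfold toG
  rw [SimpleGraph.fromEdgeSet_adj]
  rfl

theorem IsJ_not_iff {V : Type} [Fintype V] [DecidableEq V] {s : ℕ}
    {f : (Sym2 V → Bool) → Prop} : IsJ s (fun x => ¬ f x) ↔ IsJ s f := by
  constructor
  · intro h
    have := h.not
    simpa only [not_not] using this
  · exact fun h => h.not

theorem depth_junta : ∀ (d c c0 K : ℕ), ∃ s L0 D0 : ℕ, ∀ L : ℕ, L0 ≤ L → ∀ a b : ℕ,
    L ≤ K * a → 1 ≤ b → D0 * b ≤ L →
    ∀ (V : Type) [Fintype V] [DecidableEq V] (M : ℕ), M ≤ 2 ^ (c0 * L) →
    ∀ f : SimpleGraph V → Prop, IsAC0 M d f →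
    Pr ((1 / 2 : ℝ) ^ b) ((1 / 2 : ℝ) ^ a) (fun S B => ¬ IsJ s (rst S B (fun x => f (toG x)))) ≤
      (1 / 2 : ℝ) ^ (c * L) := by
  intro d
  induction d with
  | zero =>
    intro c c0 K
    refine ⟨2, 0, 0, ?_⟩
    intro L _ a b _ _ _ V _ _ M _ f hf
    obtain ⟨u, v, huv⟩ := hf
    have hdep : Dep ({u, v} : Finset V).sym2 (fun x : Sym2 V → Bool => f (toG x)) := by
      intro x y hxy
      have h1 : x s(u, v) = y s(u, v) := by
        apply hxy
        simp
      have h2 : (toG x).Adj u v ↔ (toG y).Adj u v := by rw [toG_adj, toG_adj, h1]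
      apply propext
      rcases huv with h | h
      · show f (toG x) ↔ f (toG y)
        rw [h, h, h2]
      · show f (toG x) ↔ f (toG y)
        rw [h, h, h2]
    have : (fun S B => ¬ IsJ 2 (rst S B (fun x => f (toG x)))) =
        fun (_ : Finset V) (_ : Sym2 V → Bool) => False := by
      funext S B
      apply propext
      simp only [iff_false, not_not]
      exact ⟨{u, v}, Finset.card_le_two, rst_dep hdep S B⟩
    rw [this, Pr_false]
    positivity
  | succ d ih =>
    intro c c0 K
    set K' := 4 * K with hK'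
    obtain ⟨s1, L1, D1, h1⟩ := ih (c + 1 + c0) c0 K'
    obtain ⟨s2, L2, D2, h2⟩ := junta_or s1 0 (c + 1) K'
    refine ⟨s2, L1 + L2 + 2 * K + 1, D1 + D2, ?_⟩
    intro L hL a b hLa hbpos hbL V _ _ M hM f hf
    have hbL1 : D1 * b ≤ L := (Nat.mul_le_mul_right b (Nat.le_add_right _ _)).trans hbL
    have hbL2 : D2 * b ≤ L := (Nat.mul_le_mul_right b (Nat.le_add_left _ _)).trans hbL
    have hKpos : 0 < K := by
      rcases Nat.eq_zero_or_pos K with h | h
      · rw [h] at hLa; omega
      · exact h
    have ha2 : 2 ≤ a := by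
      by_contra hcon
      push Not at hcon
      have : K * a ≤ K * 1 := Nat.mul_le_mul_left K (by omega)
      omega
    set a1 := a / 2 with ha1
    set a2 := a - a / 2 with ha2'
    have ha12 : a = a1 + a2 := by omega
    have hLa1 : L ≤ K' * a1 := by
      calc L ≤ K * a := hLa
        _ ≤ K * (4 * a1) := Nat.mul_le_mul_left K (by omega)
        _ = K' * a1 := by rw [hK']; ring
    have hLa2 : L ≤ K' * a2 := by
      calc L ≤ K * a := hLa
        _ ≤ K * (4 * a2) := Nat.mul_le_mul_left K (by omega)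
        _ = K' * a2 := by rw [hK']; ring
    obtain ⟨g, hg, hfg⟩ := hf
    set p1 : ℝ := (1 / 2 : ℝ) ^ a1 with hp1
    set p2 : ℝ := (1 / 2 : ℝ) ^ a2 with hp2
    have hp1_0 : 0 ≤ p1 := by positivity
    have hp1_1 : p1 ≤ 1 := pow_le_one₀ (by norm_num) (by norm_num)
    have hp2_0 : 0 ≤ p2 := by positivity
    have hp2_1 : p2 ≤ 1 := pow_le_one₀ (by norm_num) (by norm_num)
    set β : ℝ := (1 / 2 : ℝ) ^ b with hβ
    have hβ0 : 0 ≤ β := by positivity
    have hβ1 : β ≤ 1 := pow_le_one₀ (by norm_num) (by norm_num)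
    set bad : Finset V → (Sym2 V → Bool) → Prop := fun S B =>
      ∃ i ∈ (Finset.univ : Finset (Fin M)), ¬ IsJ s1 (rst S B (fun x => g i (toG x))) with hbad
    have hstage1 : Pr β p1 bad ≤ (1 / 2 : ℝ) ^ ((c + 1) * L) := by
      refine (Pr_exists hβ0 hβ1 hp1_0 hp1_1 _ _).trans ?_
      refine (Finset.sum_le_sum fun i _ => h1 L (by omega) a1 b hLa1 hbpos hbL1 V M hM
        (g i) (hg i)).trans ?_
      rw [Finset.sum_const, nsmul_eq_mul, Finset.card_univ, Fintype.card_fin]
      have e : (c + 1 + c0) * L = c0 * L + (c + 1) * L := by ring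
      rw [e, pow_add, ← mul_assoc]
      have : (M : ℝ) * (1 / 2 : ℝ) ^ (c0 * L) ≤ 1 := by
        calc (M : ℝ) * (1 / 2 : ℝ) ^ (c0 * L) ≤ 2 ^ (c0 * L) * (1 / 2 : ℝ) ^ (c0 * L) := by
              refine mul_le_mul_of_nonneg_right ?_ (by positivity)
              exact_mod_cast hM
          _ = 1 := by rw [← mul_pow]; norm_num
      calc _ ≤ 1 * (1 / 2 : ℝ) ^ ((c + 1) * L) := mul_le_mul_of_nonneg_right this (by positivity)
        _ = _ := one_mul _
    -- key: OR of juntas
    have key : ∀ S B, ¬ bad S B → ∀ h : Fin M → (Sym2 V → Bool) → Prop,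
        (∀ i, IsJ s1 (h i)) →
        Pr β p2 (fun S' B' => ¬ IsJ s2 (rst S' B' (fun x => ∃ i, h i x))) ≤
          (1 / 2 : ℝ) ^ ((c + 1) * L) := by
      intro S B _ h hh
      choose R hR hdep using hh
      refine h2 L (by omega) a2 b hLa2 hbpos hbL2 V ∅ (by simp) (Fin M) h R hR ?_
      intro j
      rw [Finset.empty_union]
      exact hdep j
    have hstage2 : ∀ S B, ¬ bad S B →
        Pr β p2 (fun S' B' => ¬ IsJ s2 (rst (S ∩ S') (mrg S.sym2 B' B) (fun x => f (toG x)))) ≤
          (1 / 2 : ℝ) ^ ((c + 1) * L) := by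
      intro S B hb
      simp_rw [← rst_rst]
      have hJ : ∀ i, IsJ s1 (rst S B (fun x => g i (toG x))) := by
        intro i
        by_contra hcon
        exact hb ⟨i, Finset.mem_univ i, hcon⟩
      rcases hfg with hor | hand
      · have : rst S B (fun x => f (toG x)) = fun x => ∃ i, rst S B (fun x => g i (toG x)) x := by
          funext x
          apply propext
          exact hor _
        rw [this]
        exact key S B hb _ hJ
      · have : rst S B (fun x => f (toG x)) =
            fun x => ¬ ∃ i, ¬ rst S B (fun x => g i (toG x)) x := by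
          funext x
          apply propext
          rw [not_exists_not]
          exact hand _
        rw [this]
        have h3 := key S B hb (fun i x => ¬ rst S B (fun x => g i (toG x)) x)
          (fun i => (hJ i).not)
        refine le_trans (le_of_eq ?_) h3
        congr 1
        funext S' B'
        apply propext
        rw [not_iff_not]
        exact IsJ_not_iff (f := rst S' B' (fun x => ∃ i, ¬ rst S B (fun x => g i (toG x)) x))
    have hfinal := Pr_two_stage hβ0 hβ1 hp1_0 hp1_1 hp2_0 hp2_1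
      (Φ := fun S B => ¬ IsJ s2 (rst S B (fun x => f (toG x)))) (by positivity) hstage1 hstage2
    have hpp : p1 * p2 = (1 / 2 : ℝ) ^ a := by rw [hp1, hp2, ← pow_add, ← ha12]
    rw [hpp] at hfinal
    refine hfinal.trans ?_
    have hL1 : 1 ≤ L := by omega
    have e2 : (1 / 2 : ℝ) ^ ((c + 1) * L) ≤ (1 / 2 : ℝ) ^ (c * L) * (1 / 2) := by
      have : (c + 1) * L = c * L + L := by ring
      rw [this, pow_add]
      refine mul_le_mul_of_nonneg_left ?_ (by positivity)
      calc (1 / 2 : ℝ) ^ L ≤ (1 / 2 : ℝ) ^ 1 :=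
            pow_le_pow_of_le_one (by norm_num) (by norm_num) hL1
        _ = 1 / 2 := by norm_num
    linarith

end Pool.Agent.helper64
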