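import Pool.Agent.helper64.Restrict

/-!
# Disjunctions of vertex juntas become juntas
-/

open Finset

namespace Pool.Agent.helper64

set_option linter.unusedSectionVars false

theorem exists_sq_le_two_pow (C : ℕ) : ∃ A0 : ℕ, ∀ a : ℕ, A0 ≤ a → (C * a) ^ 2 ≤ 2 ^ a := by
  have h := tendsto_pow_const_div_const_pow_of_one_lt 2 (one_lt_two : (1:ℝ) < 2)
  have hC : (0:ℝ) < 1 / ((C:ℝ) ^ 2 + 1) := by positivity
  have h2 := (h.eventually (gt_mem_nhds hC)).exists_forall_of_atTop
  obtain ⟨A0, hA⟩ := h2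
  refine ⟨A0, fun a ha => ?_⟩
  have h3 := hA a ha
  rw [div_lt_div_iff₀ (by positivity) (by positivity)] at h3
  have h4 : ((C:ℝ) * a) ^ 2 ≤ 2 ^ a := by
    have h5 : (0:ℝ) ≤ (a:ℝ) ^ 2 := by positivity
    nlinarith
  exact_mod_cast h4

theorem exists_sq_le_two_pow' (C K : ℕ) :
    ∃ L0 : ℕ, ∀ L : ℕ, L0 ≤ L → ∀ a : ℕ, L ≤ K * a → (C * L) ^ 2 ≤ 2 ^ a := by
  obtain ⟨A0, hA⟩ := exists_sq_le_two_pow (C * K)
  refine ⟨K * A0 + 1, fun L hL a ha => ?_⟩
  have hK : 0 < K := by
    rcases Nat.eq_zero_or_pos K with h | h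
    · subst h; omega
    · exact h
  have haA : A0 ≤ a := by
    by_contra hcon
    push Not at hcon
    have : K * a ≤ K * A0 := Nat.mul_le_mul_left K hcon.le
    omega
  calc (C * L) ^ 2 ≤ (C * (K * a)) ^ 2 := Nat.pow_le_pow_left (Nat.mul_le_mul_left C ha) 2
    _ = (C * K * a) ^ 2 := by ring
    _ ≤ 2 ^ a := hA a haA

theorem half_pow_sub_le (B m : ℕ) :
    (1 - (1 / 2 : ℝ) ^ B) ^ (2 ^ B * m) ≤ (1 / 2 : ℝ) ^ m := by
  rw [pow_mul]
  refine pow_le_pow_left₀ ?_ ?_ m
  · have : (1 / 2 : ℝ) ^ B ≤ 1 := pow_le_one₀ (by norm_num) (by norm_num)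
    exact pow_nonneg (by linarith) _
  · have h0 : (0:ℝ) ≤ 1 - (1 / 2 : ℝ) ^ B := by
      have : (1 / 2 : ℝ) ^ B ≤ 1 := pow_le_one₀ (by norm_num) (by norm_num)
      linarith
    calc (1 - (1 / 2 : ℝ) ^ B) ^ (2 ^ B) ≤ (Real.exp (-((1 / 2 : ℝ) ^ B))) ^ (2 ^ B) :=
          pow_le_pow_left₀ h0 (Real.one_sub_le_exp_neg _) _
      _ = Real.exp (-1) := by
          rw [← Real.exp_nat_mul]
          congr 1
          push_cast
          rw [one_div, inv_pow]
          field_simp
      _ ≤ 1 / 2 := by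
          rw [Real.exp_neg, one_div]
          apply inv_anti₀ (by norm_num)
          have := Real.add_one_le_exp (1:ℝ)
          linarith

/-- The pattern of `x` on `X`. -/
def pat {I : Type*} [DecidableEq I] (X : Finset I) (x : I → Bool) : Finset I :=
  X.filter (fun i => x i = true)

theorem pat_mem {I : Type*} [DecidableEq I] (X : Finset I) (x : I → Bool) :
    pat X x ∈ X.powerset := Finset.mem_powerset.2 (Finset.filter_subset _ _)

theorem pat_eq_iff {I : Type*} [DecidableEq I] {X : Finset I} {x y : I → Bool} :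
    pat X x = pat X y ↔ ∀ i ∈ X, x i = y i := by
  constructor
  · intro h i hi
    have h1 : i ∈ pat X x ↔ i ∈ pat X y := by rw [h]
    simp only [pat, Finset.mem_filter, hi, true_and] at h1
    cases hx : x i <;> cases hy : y i <;> simp_all
  · intro h
    unfold pat
    refine Finset.filter_congr fun i hi => ?_
    rw [h i hi]

theorem junta_or : ∀ (r q c K : ℕ), ∃ s L0 D0 : ℕ, ∀ L : ℕ, L0 ≤ L → ∀ a b : ℕ, L ≤ K * a →
    1 ≤ b → D0 * b ≤ L → ∀ (V : Type) [Fintype V] [DecidableEq V] (Q : Finset V), Q.card ≤ q →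
    ∀ (ι : Type) (g : ι → (Sym2 V → Bool) → Prop) (R : ι → Finset V),
    (∀ j, (R j).card ≤ r) → (∀ j, Dep (Q ∪ R j).sym2 (g j)) →
    Pr ((1 / 2 : ℝ) ^ b) ((1 / 2 : ℝ) ^ a) (fun S B => ¬ IsJ s (rst S B (fun x => ∃ j, g j x))) ≤
      (1 / 2 : ℝ) ^ (c * L) := by
  intro r
  induction r with
  | zero =>
    intro q c K
    refine ⟨q, 0, 0, ?_⟩
    intro L _ a b _ _ _ V _ _ Q hQ ι g R hR hg
    have hdep : Dep Q.sym2 (fun x => ∃ j, g j x) := by
      intro x y hxy
      apply propext
      refine exists_congr fun j => ?_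
      have hRj : R j = ∅ := by
        rw [← Finset.card_eq_zero]; exact Nat.le_zero.1 (hR j)
      have := hg j
      rw [hRj, Finset.union_empty] at this
      rw [this x y hxy]
    have : (fun S B => ¬ IsJ q (rst S B (fun x => ∃ j, g j x))) =
        fun (_ : Finset V) (_ : Sym2 V → Bool) => False := by
      funext S B
      apply propext
      simp only [iff_false, not_not]
      exact ⟨Q, hQ, rst_dep hdep S B⟩
    rw [this, Pr_false]
    positivity
  | succ r ih =>
    intro q c K
    set K' := 4 * K with hK'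
    set m := K' * (c + 2) with hm
    set q' := q + 2 * m with hq'
    obtain ⟨s, L1, D1, hs⟩ := ih q' (c + 1) K'
    set E0 := (q + (r + 1)) ^ 2 with hE0
    set C0 := 2 ^ (q ^ 2) * (2 ^ (r + 1) * (c + 2 + q ^ 2) * (r + 1)) with hC0
    obtain ⟨L2, hL2⟩ := exists_sq_le_two_pow' C0 (2 * K')
    refine ⟨s, L1 + L2 + 2 * K + 1, D1 + 4 * E0 * K', ?_⟩
    intro L hL a b hLa hbpos hbL V _ _ Q hQ ι g R₀ hR₀ hg₀
    classical
    have hbL1 : D1 * b ≤ L := (Nat.mul_le_mul_right b (Nat.le_add_right _ _)).trans hbL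
    have hbL2 : 4 * E0 * K' * b ≤ L := (Nat.mul_le_mul_right b (Nat.le_add_left _ _)).trans hbL
    set B0 := (r + 1) + b * E0 with hB0
    set A := 2 ^ B0 * (c + 2 + q ^ 2) with hA
    set KW := 2 ^ (q ^ 2) * (A * (r + 1)) with hKW
    have hKpos : 0 < K := by
      rcases Nat.eq_zero_or_pos K with h | h
      · rw [h] at hLa; omega
      · exact h
    -- splitting a
    have ha2 : 2 ≤ a := by
      by_contra hcon
      push Not at hcon
      have : K * a ≤ K * 1 := Nat.mul_le_mul_left K (by omega)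
      omega
    set a1 := a / 2 with ha1
    set a2 := a - a / 2 with ha2'
    have ha12 : a = a1 + a2 := by omega
    have hLa1 : L ≤ K' * a1 := by
      calc L ≤ K * a := hLa
        _ ≤ K * (4 * a1) := Nat.mul_le_mul_left K (by omega)
        _ = K' * a1 := by rw [hK']; ring
    have hLa2 : L ≤ K' * a2 := by
      calc L ≤ K * a := hLa
        _ ≤ K * (4 * a2) := Nat.mul_le_mul_left K (by omega)
        _ = K' * a2 := by rw [hK']; ring
    have ha1pos : 1 ≤ a1 := by omega
    have hK'pos : 0 < K' := by omega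
    have hEb : 4 * (b * E0) ≤ a1 := by
      have h1 : K' * (4 * (b * E0)) ≤ K' * a1 := by
        calc K' * (4 * (b * E0)) = 4 * E0 * K' * b := by ring
          _ ≤ L := hbL2
          _ ≤ K' * a1 := hLa1
      exact Nat.le_of_mul_le_mul_left h1 hK'pos
    -- make the sets R disjoint from Q
    set R : ι → Finset V := fun j => R₀ j \ Q with hRdef
    have hR : ∀ j, (R j).card ≤ r + 1 := fun j =>
      (Finset.card_le_card Finset.sdiff_subset).trans (hR₀ j)
    have hRQ : ∀ j, Disjoint (R j) Q := fun j => Finset.sdiff_disjoint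
    have hg : ∀ j, Dep (Q ∪ R j).sym2 (g j) := fun j => by
      have : Q ∪ R j = Q ∪ R₀ j := by rw [hRdef]; exact Finset.union_sdiff_self_eq_union
      rw [this]; exact hg₀ j
    set F : (Sym2 V → Bool) → Prop := fun x => ∃ j, g j x with hF
    -- indices relevant for a pattern
    set N : Finset (Sym2 V) → Set ι := fun P => {j | ∃ x, pat Q.sym2 x = P ∧ g j x} with hN
    set w := A * L with hw
    -- classification of patterns
    have hclass : ∀ P : Finset (Sym2 V), (∃ j ∈ N P, R j = ∅) ∨
        (∃ D : Finset ι, D.card = w ∧ (∀ j ∈ D, j ∈ N P) ∧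
          ∀ i ∈ D, ∀ j ∈ D, i ≠ j → Disjoint (R i) (R j)) ∨
        (∃ W : Finset V, W.card ≤ w * (r + 1) ∧ ∀ j ∈ N P, ¬ Disjoint (R j) W) := by
      intro P
      by_cases h : ∃ j ∈ N P, R j = ∅
      · exact Or.inl h
      · push Not at h
        exact Or.inr (greedy (N P) R hR (fun j hj => h j hj) w)
    -- choose the data
    have hchoice : ∃ (D : Finset (Sym2 V) → Finset ι) (W : Finset (Sym2 V) → Finset V),
        (∀ P, (∀ j ∈ D P, j ∈ N P) ∧ (∀ i ∈ D P, ∀ j ∈ D P, i ≠ j → Disjoint (R i) (R j))) ∧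
        (∀ P, (W P).card ≤ w * (r + 1)) ∧
        ∀ P, (∃ j ∈ N P, R j = ∅) ∨ (D P).card = w ∨ (∀ j ∈ N P, ¬ Disjoint (R j) (W P)) := by
      have : ∀ P : Finset (Sym2 V), ∃ (DP : Finset ι) (WP : Finset V),
          ((∀ j ∈ DP, j ∈ N P) ∧ (∀ i ∈ DP, ∀ j ∈ DP, i ≠ j → Disjoint (R i) (R j))) ∧
          WP.card ≤ w * (r + 1) ∧ ((∃ j ∈ N P, R j = ∅) ∨ DP.card = w ∨
            (∀ j ∈ N P, ¬ Disjoint (R j) WP)) := by
        intro P
        rcases hclass P with h | ⟨D, h1, h2, h3⟩ | ⟨W, h1, h2⟩
        · exact ⟨∅, ∅, ⟨by simp, by simp⟩, by simp, Or.inl h⟩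
        · exact ⟨D, ∅, ⟨h2, h3⟩, by simp, Or.inr (Or.inl h1)⟩
        · exact ⟨∅, W, ⟨by simp, by simp⟩, h1, Or.inr (Or.inr h2)⟩
      choose D W h1 h2 h3 using this
      exact ⟨D, W, h1, h2, h3⟩
    obtain ⟨D, W, hD, hW, hDW⟩ := hchoice
    -- witnesses
    have hwit : ∀ (P : Finset (Sym2 V)) (j : ι), ∃ x : Sym2 V → Bool,
        j ∈ N P → pat Q.sym2 x = P ∧ g j x := by
      intro P j
      by_cases h : j ∈ N P
      · obtain ⟨x, hx⟩ := h
        exact ⟨x, fun _ => hx⟩
      · exact ⟨fun _ => false, fun h' => absurd h' h⟩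
    choose π hπ using hwit
    set WW : Finset V := Q.sym2.powerset.biUnion W with hWW
    -- bad events of the first stage
    set bad1 : Finset V → (Sym2 V → Bool) → Prop := fun S B => ∃ P ∈ Q.sym2.powerset,
      ((D P).card = w ∧ ∀ j ∈ D P, ¬ (Disjoint (R j) S ∧
        ∀ e ∈ (Q ∪ R j).sym2 \ Q.sym2, B e = π P j e)) with hbad1
    set bad2 : Finset V → (Sym2 V → Bool) → Prop := fun S _ => 2 * m ≤ (WW ∩ S).card with hbad2
    set p1 : ℝ := (1 / 2 : ℝ) ^ a1 with hp1
    set p2 : ℝ := (1 / 2 : ℝ) ^ a2 with hp2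
    have hp1_0 : 0 ≤ p1 := by positivity
    have hp1_half : p1 ≤ 1 / 2 := by
      calc p1 ≤ (1 / 2 : ℝ) ^ 1 := pow_le_pow_of_le_one (by norm_num) (by norm_num) ha1pos
        _ = 1 / 2 := by norm_num
    have hp2_0 : 0 ≤ p2 := by positivity
    have hp2_1 : p2 ≤ 1 := pow_le_one₀ (by norm_num) (by norm_num)
    set β : ℝ := (1 / 2 : ℝ) ^ b with hβ
    have hβ0 : 0 ≤ β := by positivity
    have hβ_half : β ≤ 1 / 2 := by
      calc β ≤ (1 / 2 : ℝ) ^ 1 := pow_le_pow_of_le_one (by norm_num) (by norm_num) hbpos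
        _ = 1 / 2 := by norm_num
    have hβ1 : β ≤ 1 := by linarith
    have hcardP : (Q.sym2.powerset.card : ℝ) ≤ 2 ^ (q ^ 2) := by
      rw [Finset.card_powerset]
      push_cast
      exact pow_le_pow_right₀ (by norm_num) (card_sym2_le Q hQ)
    -- estimate of bad1
    have hpr1 : Pr β p1 bad1 ≤ (1 / 2 : ℝ) ^ ((c + 2) * L) := by
      have h1 := Pr_exists hβ0 hβ1 hp1_0 (by linarith) Q.sym2.powerset (fun P S B =>
        ((D P).card = w ∧ ∀ j ∈ D P, ¬ (Disjoint (R j) S ∧
        ∀ e ∈ (Q ∪ R j).sym2 \ Q.sym2, B e = π P j e)))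
      refine h1.trans ?_
      have h2 : ∀ P ∈ Q.sym2.powerset, Pr β p1 (fun S B =>
        ((D P).card = w ∧ ∀ j ∈ D P, ¬ (Disjoint (R j) S ∧
        ∀ e ∈ (Q ∪ R j).sym2 \ Q.sym2, B e = π P j e))) ≤
          (1 / 2 : ℝ) ^ ((c + 2 + q ^ 2) * L) := by
        intro P _
        by_cases hc : (D P).card = w
        · refine (Pr_mono hβ0 hβ1 hp1_0 (by linarith) (fun S B h => h.2)).trans ?_
          refine (noEv_bound (D P) R Q (hD P).2 (fun j _ => hR j) hQ (π P) hβ0 hβ_half
            hp1_0 hp1_half).trans ?_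
          have hpw : (1 / 2 : ℝ) ^ (r + 1) * β ^ ((q + (r + 1)) ^ 2) = (1 / 2 : ℝ) ^ B0 := by
            rw [hβ, hB0, ← hE0, ← pow_mul, ← pow_add]
          rw [hpw, hc, hw, hA]
          have : 2 ^ B0 * (c + 2 + q ^ 2) * L = 2 ^ B0 * ((c + 2 + q ^ 2) * L) := by ring
          rw [this]
          exact half_pow_sub_le _ _
        · have : (fun (S : Finset V) (B : Sym2 V → Bool) =>
            ((D P).card = w ∧ ∀ j ∈ D P, ¬ (Disjoint (R j) S ∧
            ∀ e ∈ (Q ∪ R j).sym2 \ Q.sym2, B e = π P j e))) = fun _ _ => False := by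
            funext S B; simp [hc]
          rw [this, Pr_false]
          positivity
      refine (Finset.sum_le_sum h2).trans ?_
      rw [Finset.sum_const, nsmul_eq_mul]
      have h3 : (c + 2 + q ^ 2) * L = q ^ 2 * L + (c + 2) * L := by ring
      rw [h3, pow_add, ← mul_assoc]
      have h4 : (Q.sym2.powerset.card : ℝ) * (1 / 2 : ℝ) ^ (q ^ 2 * L) ≤ 1 := by
        have hL1 : 1 ≤ L := by omega
        have h5 : (1 / 2 : ℝ) ^ (q ^ 2 * L) ≤ (1 / 2 : ℝ) ^ (q ^ 2) :=
          pow_le_pow_of_le_one (by norm_num) (by norm_num) (Nat.le_mul_of_pos_right _ hL1)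
        calc (Q.sym2.powerset.card : ℝ) * (1 / 2 : ℝ) ^ (q ^ 2 * L)
            ≤ 2 ^ (q ^ 2) * (1 / 2 : ℝ) ^ (q ^ 2) :=
              mul_le_mul hcardP h5 (by positivity) (by positivity)
          _ = 1 := by rw [← mul_pow]; norm_num
      calc _ ≤ 1 * (1 / 2 : ℝ) ^ ((c + 2) * L) :=
            mul_le_mul_of_nonneg_right h4 (by positivity)
        _ = _ := one_mul _
    -- estimate of bad2
    have hpr2 : Pr β p1 bad2 ≤ (1 / 2 : ℝ) ^ ((c + 2) * L) := by
      refine (hit_bound WW (2 * m) hp1_0 (by linarith)).trans ?_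
      have hWWcard : WW.card ≤ KW * L := by
        calc WW.card ≤ Q.sym2.powerset.card * (w * (r + 1)) :=
              Finset.card_biUnion_le_card_mul _ _ _ (fun P _ => hW P)
          _ ≤ 2 ^ (q ^ 2) * (w * (r + 1)) := by
              refine Nat.mul_le_mul_right _ ?_
              rw [Finset.card_powerset]
              exact Nat.pow_le_pow_right (by norm_num) (card_sym2_le Q hQ)
          _ = KW * L := by rw [hKW, hw]; ring
      have h1 : ((WW.card : ℝ) * p1) ^ 2 ≤ p1 := by
        have h2 : ((KW * L : ℕ) : ℝ) ^ 2 ≤ 2 ^ a1 := by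
          have h4 : (C0 * L) ^ 2 ≤ 2 ^ (a1 - 2 * (b * E0)) := by
            refine hL2 L (by omega) _ ?_
            calc L ≤ K' * a1 := hLa1
              _ ≤ K' * (2 * (a1 - 2 * (b * E0))) := Nat.mul_le_mul_left K' (by omega)
              _ = 2 * K' * (a1 - 2 * (b * E0)) := by ring
          have h5 : (KW * L) ^ 2 ≤ 2 ^ a1 := by
            have h6 : KW = C0 * 2 ^ (b * E0) := by
              rw [hKW, hA, hB0, hC0, pow_add]; ring
            calc (KW * L) ^ 2 = (C0 * L) ^ 2 * 2 ^ (2 * (b * E0)) := by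
                  rw [h6, mul_comm 2 (b * E0), pow_mul]; ring
              _ ≤ 2 ^ (a1 - 2 * (b * E0)) * 2 ^ (2 * (b * E0)) := Nat.mul_le_mul_right _ h4
              _ = 2 ^ a1 := by rw [← pow_add]; congr 1; omega
          exact_mod_cast h5
        have h3 : (WW.card : ℝ) ^ 2 ≤ 2 ^ a1 := by
          refine le_trans (pow_le_pow_left₀ (Nat.cast_nonneg _) ?_ 2) h2
          exact_mod_cast hWWcard
        calc ((WW.card : ℝ) * p1) ^ 2 = (WW.card : ℝ) ^ 2 * p1 * p1 := by ring
          _ ≤ 2 ^ a1 * p1 * p1 := by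
              refine mul_le_mul_of_nonneg_right (mul_le_mul_of_nonneg_right h3 hp1_0) hp1_0
          _ = p1 := by
              rw [hp1, ← mul_pow]; norm_num
      calc ((WW.card : ℝ) * p1) ^ (2 * m) = (((WW.card : ℝ) * p1) ^ 2) ^ m := by rw [pow_mul]
        _ ≤ p1 ^ m := pow_le_pow_left₀ (sq_nonneg _) h1 m
        _ = (1 / 2 : ℝ) ^ (a1 * m) := by rw [hp1, ← pow_mul]
        _ ≤ (1 / 2 : ℝ) ^ ((c + 2) * L) := by
            apply pow_le_pow_of_le_one (by norm_num) (by norm_num)
            calc (c + 2) * L ≤ (c + 2) * (K' * a1) := Nat.mul_le_mul_left _ hLa1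
              _ = a1 * m := by rw [hm]; ring
    have hstage1 : Pr β p1 (fun S B => bad1 S B ∨ bad2 S B) ≤
        (1 / 2 : ℝ) ^ ((c + 2) * L) + (1 / 2 : ℝ) ^ ((c + 2) * L) :=
      (Pr_or hβ0 hβ1 hp1_0 (by linarith) _ _).trans (add_le_add hpr1 hpr2)
    -- second stage
    have hstage2 : ∀ S B, ¬ (bad1 S B ∨ bad2 S B) →
        Pr β p2 (fun S' B' => ¬ IsJ s (rst (S ∩ S') (mrg S.sym2 B' B) F)) ≤
          (1 / 2 : ℝ) ^ ((c + 1) * L) := by
      intro S B hbad
      push Not at hbad
      obtain ⟨hb1, hb2⟩ := hbad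
      simp_rw [← rst_rst]
      -- the new data
      set Q' : Finset V := (Q ∪ WW) ∩ S with hQ'
      have hQ'card : Q'.card ≤ q' := by
        have h1 : Q' ⊆ Q ∪ (WW ∩ S) := by
          intro v hv
          rw [hQ', Finset.mem_inter, Finset.mem_union] at hv
          rcases hv.1 with h | h
          · exact Finset.mem_union_left _ h
          · exact Finset.mem_union_right _ (Finset.mem_inter.2 ⟨h, hv.2⟩)
        have h2 : (WW ∩ S).card < 2 * m := not_le.1 hb2
        calc Q'.card ≤ (Q ∪ (WW ∩ S)).card := Finset.card_le_card h1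
          _ ≤ Q.card + (WW ∩ S).card := Finset.card_union_le _ _
          _ ≤ q + 2 * m := by omega
      set large : (Sym2 V → Bool) → Prop := fun y =>
        (∃ j ∈ N (pat Q.sym2 y), R j = ∅) ∨ (D (pat Q.sym2 y)).card = w with hlarge
      let g' : Option {j : ι // ¬ Disjoint (R j) WW} → (Sym2 V → Bool) → Prop := fun o =>
        match o with
        | none => rst S B large
        | some j => rst S B (g j.1)
      let R' : Option {j : ι // ¬ Disjoint (R j) WW} → Finset V := fun o =>
        match o with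
        | none => ∅
        | some j => (R j.1 ∩ S) \ WW
      have hR' : ∀ o, (R' o).card ≤ r := by
        intro o
        match o with
        | none => exact Nat.zero_le _
        | some j =>
          have h1 : (R j.1 ∩ S) \ WW ⊂ R j.1 := by
            rw [Finset.ssubset_iff_subset_ne]
            refine ⟨Finset.sdiff_subset.trans Finset.inter_subset_left, ?_⟩
            intro heq
            apply j.2
            rw [← heq]
            exact Finset.sdiff_disjoint
          have h2 := Finset.card_lt_card h1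
          have h3 := hR j.1
          show ((R j.1 ∩ S) \ WW).card ≤ r
          omega
      have hg' : ∀ o, Dep (Q' ∪ R' o).sym2 (g' o) := by
        intro o
        match o with
        | none =>
          have h1 : Dep Q.sym2 large := by
            intro x y hxy
            have : pat Q.sym2 x = pat Q.sym2 y := pat_eq_iff.2 hxy
            show ((∃ j ∈ N (pat Q.sym2 x), R j = ∅) ∨ (D (pat Q.sym2 x)).card = w) =
              ((∃ j ∈ N (pat Q.sym2 y), R j = ∅) ∨ (D (pat Q.sym2 y)).card = w)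
            rw [this]
          refine (rst_dep_inter h1 S B).mono (sym2_mono' ?_)
          intro v hv
          rw [Finset.mem_inter] at hv
          exact Finset.mem_union_left _ (Finset.mem_inter.2 ⟨Finset.mem_union_left _ hv.1, hv.2⟩)
        | some j =>
          refine (rst_dep_inter (hg j.1) S B).mono (sym2_mono' ?_)
          intro v hv
          rw [Finset.mem_inter, Finset.mem_union] at hv
          by_cases hvW : v ∈ WW
          · exact Finset.mem_union_left _ (Finset.mem_inter.2
              ⟨Finset.mem_union_right _ hvW, hv.2⟩)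
          · rcases hv.1 with h | h
            · exact Finset.mem_union_left _ (Finset.mem_inter.2
                ⟨Finset.mem_union_left _ h, hv.2⟩)
            · exact Finset.mem_union_right _ (Finset.mem_sdiff.2
                ⟨Finset.mem_inter.2 ⟨h, hv.2⟩, hvW⟩)
      have hEq : rst S B F = fun x => ∃ o, g' o x := by
        funext x
        apply propext
        set y := mrg S.sym2 x B with hy
        have hFy : rst S B F x ↔ ∃ j, g j y := Iff.rfl
        rw [hFy]
        constructor
        · rintro ⟨j, hj⟩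
          have hjN : j ∈ N (pat Q.sym2 y) := ⟨y, rfl, hj⟩
          rcases hDW (pat Q.sym2 y) with h | h | h
          · exact ⟨none, Or.inl h⟩
          · exact ⟨none, Or.inr h⟩
          · have h1 : ¬ Disjoint (R j) WW := by
              intro hd
              apply h j hjN
              refine Finset.disjoint_of_subset_right ?_ hd
              exact Finset.subset_biUnion_of_mem W (pat_mem Q.sym2 y)
            exact ⟨some ⟨j, h1⟩, hj⟩
        · rintro ⟨o, ho⟩
          match o, ho with
          | none, ho =>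
            have ho' : large y := ho
            rcases ho' with ⟨j, hjN, hRj⟩ | hcard
            · obtain ⟨hpx, hgx⟩ := hπ (pat Q.sym2 y) j hjN
              refine ⟨j, ?_⟩
              have h1 := hg j
              rw [hRj, Finset.union_empty] at h1
              rw [h1 y (π (pat Q.sym2 y) j) (pat_eq_iff.1 hpx.symm)]
              exact hgx
            · have h2 : ¬ ∀ j ∈ D (pat Q.sym2 y), ¬ (Disjoint (R j) S ∧
                  ∀ e ∈ (Q ∪ R j).sym2 \ Q.sym2, B e = π (pat Q.sym2 y) j e) := by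
                intro hcon
                exact hb1 ⟨pat Q.sym2 y, pat_mem _ _, hcard, hcon⟩
              push Not at h2
              obtain ⟨j, hjD, hjS, hjB⟩ := h2
              obtain ⟨hpx, hgx⟩ := hπ (pat Q.sym2 y) j ((hD _).1 j hjD)
              refine ⟨j, ?_⟩
              rw [hg j y (π (pat Q.sym2 y) j)]
              · exact hgx
              · intro e he
                by_cases heQ : e ∈ Q.sym2
                · exact pat_eq_iff.1 hpx.symm e heQ
                · have h3 : e ∉ S.sym2 := by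
                    intro heS
                    apply heQ
                    rw [Finset.mem_sym2_iff] at *
                    intro v hv
                    rcases Finset.mem_union.1 (he v hv) with h4 | h4
                    · exact h4
                    · exact absurd (heS v hv) (Finset.disjoint_left.1 hjS h4)
                  rw [hy]
                  have h5 : mrg S.sym2 x B e = B e := by simp [mrg, h3]
                  rw [h5]
                  exact hjB e (Finset.mem_sdiff.2 ⟨he, heQ⟩)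
          | some j, ho => exact ⟨j.1, ho⟩
      rw [hEq]
      exact hs L (by omega) a2 b hLa2 hbpos hbL1 V Q' hQ'card _ g' R' hR' hg'
    have hfinal := Pr_two_stage hβ0 hβ1 hp1_0 (by linarith : p1 ≤ 1) hp2_0 hp2_1
      (Φ := fun S B => ¬ IsJ s (rst S B F)) (by positivity) hstage1 hstage2
    have hpp : p1 * p2 = (1 / 2 : ℝ) ^ a := by rw [hp1, hp2, ← pow_add, ← ha12]
    rw [hpp] at hfinal
    refine hfinal.trans ?_
    have hL1 : 1 ≤ L := by omega
    have e1 : (1 / 2 : ℝ) ^ ((c + 2) * L) ≤ (1 / 2 : ℝ) ^ (c * L) * (1 / 4) := by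
      have : (c + 2) * L = c * L + 2 * L := by ring
      rw [this, pow_add]
      refine mul_le_mul_of_nonneg_left ?_ (by positivity)
      calc (1 / 2 : ℝ) ^ (2 * L) ≤ (1 / 2 : ℝ) ^ 2 :=
            pow_le_pow_of_le_one (by norm_num) (by norm_num) (by omega)
        _ = 1 / 4 := by norm_num
    have e2 : (1 / 2 : ℝ) ^ ((c + 1) * L) ≤ (1 / 2 : ℝ) ^ (c * L) * (1 / 2) := by
      have : (c + 1) * L = c * L + L := by ring
      rw [this, pow_add]
      refine mul_le_mul_of_nonneg_left ?_ (by positivity)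
      calc (1 / 2 : ℝ) ^ L ≤ (1 / 2 : ℝ) ^ 1 :=
            pow_le_pow_of_le_one (by norm_num) (by norm_num) hL1
        _ = 1 / 2 := by norm_num
    linarith

end Pool.Agent.helper64
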