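import Mathlib

/-!
# Product Bernoulli weights on `I → Bool` (finite, elementary)
-/

open Finset

namespace Pool.Agent.helper64

set_option linter.unusedSectionVars false

/-- Bernoulli weight. -/
def ber (p : ℝ) (b : Bool) : ℝ := if b then p else 1 - p

theorem ber_nonneg {p : ℝ} (h0 : 0 ≤ p) (h1 : p ≤ 1) (b : Bool) : 0 ≤ ber p b := by
  unfold ber; split_ifs <;> linarith

theorem ber_sum (p : ℝ) : ∑ b : Bool, ber p b = 1 := by
  simp [ber]

open Classical in
/-- Indicator of a proposition. -/
noncomputable def ind (P : Prop) : ℝ := if P then 1 else 0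

theorem ind_pos {P : Prop} (h : P) : ind P = 1 := by simp [ind, h]

theorem ind_neg {P : Prop} (h : ¬ P) : ind P = 0 := by simp [ind, h]

theorem ind_nonneg (P : Prop) : 0 ≤ ind P := by unfold ind; split_ifs <;> norm_num

theorem ind_le_one (P : Prop) : ind P ≤ 1 := by unfold ind; split_ifs <;> norm_num

theorem ind_mono {P Q : Prop} (h : P → Q) : ind P ≤ ind Q := by
  by_cases hP : P
  · rw [ind_pos hP, ind_pos (h hP)]
  · rw [ind_neg hP]; exact ind_nonneg Q

theorem ind_congr {P Q : Prop} (h : P ↔ Q) : ind P = ind Q := by rw [propext h]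

section

variable {I : Type*} [Fintype I] [DecidableEq I]

/-- Product weight. -/
noncomputable def wt (p : ℝ) (x : I → Bool) : ℝ := ∏ i, ber p (x i)

/-- Expectation with respect to independent Bernoulli(`p`) coordinates. -/
noncomputable def Ep (p : ℝ) (f : (I → Bool) → ℝ) : ℝ := ∑ x, wt p x * f x

theorem wt_nonneg {p : ℝ} (h0 : 0 ≤ p) (h1 : p ≤ 1) (x : I → Bool) : 0 ≤ wt p x :=
  Finset.prod_nonneg fun _ _ => ber_nonneg h0 h1 _

theorem wt_sum (p : ℝ) : ∑ x : I → Bool, wt p x = 1 := by
  unfold wt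
  have := Finset.prod_univ_sum (fun _ : I => (Finset.univ : Finset Bool)) (fun _ b => ber p b)
  rw [Fintype.piFinset_univ] at this
  rw [← this]
  simp_rw [ber_sum]
  simp

theorem Ep_const (p c : ℝ) : Ep (I := I) p (fun _ => c) = c := by
  unfold Ep
  rw [← Finset.sum_mul, wt_sum, one_mul]

theorem Ep_add (p : ℝ) (f g : (I → Bool) → ℝ) :
    Ep p (fun x => f x + g x) = Ep p f + Ep p g := by
  unfold Ep
  rw [← Finset.sum_add_distrib]
  exact Finset.sum_congr rfl fun _ _ => by ring

theorem Ep_smul (p c : ℝ) (f : (I → Bool) → ℝ) :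
    Ep p (fun x => c * f x) = c * Ep p f := by
  unfold Ep
  rw [Finset.mul_sum]
  exact Finset.sum_congr rfl fun _ _ => by ring

theorem Ep_sum {κ : Type*} (p : ℝ) (t : Finset κ) (f : κ → (I → Bool) → ℝ) :
    Ep p (fun x => ∑ j ∈ t, f j x) = ∑ j ∈ t, Ep p (f j) := by
  unfold Ep
  rw [Finset.sum_comm]
  exact Finset.sum_congr rfl fun _ _ => by rw [Finset.mul_sum]

theorem Ep_mono {p : ℝ} (h0 : 0 ≤ p) (h1 : p ≤ 1) {f g : (I → Bool) → ℝ} (h : ∀ x, f x ≤ g x) :
    Ep p f ≤ Ep p g :=
  Finset.sum_le_sum fun x _ => mul_le_mul_of_nonneg_left (h x) (wt_nonneg h0 h1 x)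

theorem Ep_nonneg {p : ℝ} (h0 : 0 ≤ p) (h1 : p ≤ 1) {f : (I → Bool) → ℝ} (h : ∀ x, 0 ≤ f x) :
    0 ≤ Ep p f :=
  Finset.sum_nonneg fun x _ => mul_nonneg (wt_nonneg h0 h1 x) (h x)

theorem Ep_le_one {p : ℝ} (h0 : 0 ≤ p) (h1 : p ≤ 1) {f : (I → Bool) → ℝ} (h : ∀ x, f x ≤ 1) :
    Ep p f ≤ 1 := by
  calc Ep p f ≤ Ep p (fun _ : I → Bool => (1:ℝ)) := Ep_mono h0 h1 h
    _ = 1 := Ep_const p 1

theorem Ep_comm {J : Type*} [Fintype J] [DecidableEq J] (p q : ℝ)
    (f : (I → Bool) → (J → Bool) → ℝ) :
    Ep p (fun x => Ep q (fun y => f x y)) = Ep q (fun y => Ep p (fun x => f x y)) := by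
  unfold Ep
  simp_rw [Finset.mul_sum]
  rw [Finset.sum_comm]
  exact Finset.sum_congr rfl fun _ _ => Finset.sum_congr rfl fun _ _ => by ring

/-- Merge: use `x` on `X` and `y` elsewhere. -/
def mrg (X : Finset I) (x y : I → Bool) : I → Bool := fun i => if i ∈ X then x i else y i

theorem wt_mrg (p : ℝ) (X : Finset I) (x y : I → Bool) :
    wt p (mrg X x y) * wt p (mrg X y x) = wt p x * wt p y := by
  unfold wt
  rw [← Finset.prod_mul_distrib, ← Finset.prod_mul_distrib]
  refine Finset.prod_congr rfl fun i _ => ?_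
  unfold mrg
  split_ifs
  · rfl
  · ring

/-- The exchange involution on pairs. -/
def swapEquiv (X : Finset I) : ((I → Bool) × (I → Bool)) ≃ ((I → Bool) × (I → Bool)) where
  toFun z := (mrg X z.1 z.2, mrg X z.2 z.1)
  invFun z := (mrg X z.1 z.2, mrg X z.2 z.1)
  left_inv z := by
    ext i
    · simp only [mrg]; split_ifs <;> rfl
    · simp only [mrg]; split_ifs <;> rfl
  right_inv z := by
    ext i
    · simp only [mrg]; split_ifs <;> rfl
    · simp only [mrg]; split_ifs <;> rfl

theorem Ep_Ep (p : ℝ) (F : (I → Bool) → (I → Bool) → ℝ) :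
    Ep p (fun x => Ep p (fun y => F x y)) =
      ∑ z : (I → Bool) × (I → Bool), wt p z.1 * wt p z.2 * F z.1 z.2 := by
  unfold Ep
  rw [Fintype.sum_prod_type]
  refine Finset.sum_congr rfl fun x _ => ?_
  rw [Finset.mul_sum]
  exact Finset.sum_congr rfl fun y _ => by ring

/-- Exchange of the coordinates of two independent copies. -/
theorem Ep_swap (p : ℝ) (X : Finset I) (F : (I → Bool) → (I → Bool) → ℝ) :
    Ep p (fun x => Ep p (fun y => F (mrg X x y) (mrg X y x))) =
      Ep p (fun x => Ep p (fun y => F x y)) := by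
  rw [Ep_Ep, Ep_Ep, ← (swapEquiv X).sum_comp]
  refine Finset.sum_congr rfl fun z _ => ?_
  have : swapEquiv X z = (mrg X z.1 z.2, mrg X z.2 z.1) := rfl
  rw [this]
  simp only
  rw [wt_mrg]
  have h1 : mrg X (mrg X z.1 z.2) (mrg X z.2 z.1) = z.1 := by
    ext i; simp only [mrg]; split_ifs <;> rfl
  have h2 : mrg X (mrg X z.2 z.1) (mrg X z.1 z.2) = z.2 := by
    ext i; simp only [mrg]; split_ifs <;> rfl
  rw [h1, h2]

theorem Ep_mrg (p : ℝ) (X : Finset I) (φ : (I → Bool) → ℝ) :
    Ep p (fun x => Ep p (fun y => φ (mrg X x y))) = Ep p φ := by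
  rw [Ep_swap p X (fun a _ => φ a)]
  simp_rw [Ep_const]

/-- `f` depends only on the coordinates in `X`. -/
def Dep {β : Type*} (X : Finset I) (f : (I → Bool) → β) : Prop :=
  ∀ x y, (∀ i ∈ X, x i = y i) → f x = f y

theorem Ep_mul_of_dep (p : ℝ) {X Y : Finset I} (hXY : Disjoint X Y) {f g : (I → Bool) → ℝ}
    (hf : Dep X f) (hg : Dep Y g) :
    Ep p (fun x => f x * g x) = Ep p f * Ep p g := by
  have h1 : Ep p f * Ep p g = Ep p (fun x => Ep p (fun y => f x * g y)) := by
    simp_rw [Ep_smul]
    have : (fun x => f x * Ep p g) = fun x => Ep p g * f x := by funext x; ring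
    rw [this, Ep_smul]; ring
  have h2 : Ep p (fun x => Ep p (fun y => f x * g y)) =
      Ep p (fun x => Ep p (fun y => f (mrg X x y) * g (mrg X x y))) := by
    congr 1; funext x; congr 1; funext y
    have e1 : f (mrg X x y) = f x := hf _ _ fun i hi => by simp [mrg, hi]
    have e2 : g (mrg X x y) = g y := hg _ _ fun i hi => by
      have : i ∉ X := fun h => (Finset.disjoint_left.1 hXY h) hi
      simp [mrg, this]
    rw [e1, e2]
  rw [h1, h2, Ep_mrg p X (fun x => f x * g x)]

theorem Ep_prod_of_dep {κ : Type*} [DecidableEq κ] (p : ℝ) (D : Finset κ) (X : κ → Finset I)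
    (hX : ∀ i ∈ D, ∀ j ∈ D, i ≠ j → Disjoint (X i) (X j)) (h : κ → (I → Bool) → ℝ)
    (hh : ∀ j ∈ D, Dep (X j) (h j)) :
    Ep p (fun x => ∏ j ∈ D, h j x) = ∏ j ∈ D, Ep p (h j) := by
  induction D using Finset.induction_on with
  | empty => simp [Ep_const]
  | insert a D ha ih =>
    simp_rw [Finset.prod_insert ha]
    rw [← ih (fun i hi j hj => hX i (Finset.mem_insert_of_mem hi) j (Finset.mem_insert_of_mem hj))
      (fun j hj => hh j (Finset.mem_insert_of_mem hj))]
    refine Ep_mul_of_dep p (X := X a) (Y := D.biUnion X) ?_ (hh a (Finset.mem_insert_self a D)) ?_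
    · rw [Finset.disjoint_biUnion_right]
      intro j hj
      exact hX a (Finset.mem_insert_self a D) j (Finset.mem_insert_of_mem hj)
        (fun h => ha (h ▸ hj))
    · intro x y hxy
      refine Finset.prod_congr rfl fun j hj => ?_
      exact hh j (Finset.mem_insert_of_mem hj) x y
        fun i hi => hxy i (Finset.mem_biUnion.2 ⟨j, hj, hi⟩)

/-- Product formula for coordinatewise functions. -/
theorem Ep_prod_coord (p : ℝ) (h : I → Bool → ℝ) :
    Ep p (fun x => ∏ i, h i (x i)) = ∏ i, (p * h i true + (1 - p) * h i false) := by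
  unfold Ep wt
  have := Finset.prod_univ_sum (fun _ : I => (Finset.univ : Finset Bool))
    (fun i b => ber p b * h i b)
  rw [Fintype.piFinset_univ] at this
  have h2 : ∀ i, ∑ b : Bool, ber p b * h i b = p * h i true + (1 - p) * h i false := by
    intro i; simp [ber]
  simp_rw [h2] at this
  rw [this]
  exact Finset.sum_congr rfl fun x _ => by rw [Finset.prod_mul_distrib]

/-- Probability of a cylinder. -/
theorem Ep_cylinder (p : ℝ) (X : Finset I) (t : I → Bool) :
    Ep p (fun x => ind (∀ i ∈ X, x i = t i)) = ∏ i ∈ X, ber p (t i) := by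
  have h1 : (fun x : I → Bool => ind (∀ i ∈ X, x i = t i)) =
      fun x => ∏ i, (fun i b => if i ∈ X then (if b = t i then (1:ℝ) else 0) else 1) i (x i) := by
    funext x
    by_cases h : ∀ i ∈ X, x i = t i
    · rw [ind_pos h, Finset.prod_eq_one]
      intro i _
      by_cases hi : i ∈ X
      · simp [hi, h i hi]
      · simp [hi]
    · rw [ind_neg h]
      push Not at h
      obtain ⟨i, hi, hne⟩ := h
      rw [Finset.prod_eq_zero (Finset.mem_univ i)]
      simp [hi, hne]
  rw [h1]
  refine (Ep_prod_coord p (fun i b => if i ∈ X then (if b = t i then (1:ℝ) else 0) else 1)).trans ?_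
  rw [← Finset.prod_subset (Finset.subset_univ X)]
  · refine Finset.prod_congr rfl fun i hi => ?_
    cases h : t i <;> simp [hi, ber]
  · intro i _ hi
    simp [hi]

/-- Composition of two independent random subsets. -/
theorem Ep_and (p q : ℝ) (φ : (I → Bool) → ℝ) :
    Ep p (fun x => Ep q (fun y => φ (fun i => x i && y i))) = Ep (p * q) φ := by
  have e1 : Ep p (fun x => Ep q (fun y => φ (fun i => x i && y i))) =
      ∑ z : I → Bool × Bool, (∏ i, (ber p (z i).1 * ber q (z i).2)) *
        φ (fun i => (z i).1 && (z i).2) := by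
    unfold Ep
    rw [← (Equiv.arrowProdEquivProdArrow I (fun _ => Bool) (fun _ => Bool)).symm.sum_comp,
      Fintype.sum_prod_type]
    refine Finset.sum_congr rfl fun x _ => ?_
    rw [Finset.mul_sum]
    refine Finset.sum_congr rfl fun y _ => ?_
    rw [Finset.prod_mul_distrib]
    unfold wt
    simp only [Equiv.arrowProdEquivProdArrow, Equiv.coe_fn_symm_mk]
    ring
  have e2 : Ep (p * q) φ = ∑ t : I → Bool, ∑ z ∈ Finset.univ.filter
      (fun z : I → Bool × Bool => (fun i => (z i).1 && (z i).2) = t),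
      (∏ i, (ber p (z i).1 * ber q (z i).2)) * φ (fun i => (z i).1 && (z i).2) := by
    unfold Ep
    refine Finset.sum_congr rfl fun t _ => ?_
    have h1 : ∀ z ∈ Finset.univ.filter
      (fun z : I → Bool × Bool => (fun i => (z i).1 && (z i).2) = t),
      (∏ i, (ber p (z i).1 * ber q (z i).2)) * φ (fun i => (z i).1 && (z i).2) =
      (∏ i, (ber p (z i).1 * ber q (z i).2)) * φ t := by
      intro z hz
      rw [Finset.mem_filter] at hz
      rw [hz.2]
    rw [Finset.sum_congr rfl h1, ← Finset.sum_mul]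
    congr 1
    have h2 : Finset.univ.filter
      (fun z : I → Bool × Bool => (fun i => (z i).1 && (z i).2) = t) =
      Fintype.piFinset (fun i => Finset.univ.filter (fun a : Bool × Bool => (a.1 && a.2) = t i)) := by
      ext z
      simp only [Finset.mem_filter, Finset.mem_univ, true_and, Fintype.mem_piFinset]
      constructor
      · intro h i; exact congrFun h i
      · intro h; funext i; exact h i
    rw [h2, ← Finset.prod_univ_sum (fun i => Finset.univ.filter
      (fun a : Bool × Bool => (a.1 && a.2) = t i)) (fun _ a => ber p a.1 * ber q a.2)]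
    unfold wt
    refine Finset.prod_congr rfl fun i _ => ?_
    cases t i
    · have : (Finset.univ.filter (fun a : Bool × Bool => (a.1 && a.2) = false)) =
        {(false, false), (false, true), (true, false)} := by decide
      rw [this]
      simp [ber]; ring
    · have : (Finset.univ.filter (fun a : Bool × Bool => (a.1 && a.2) = true)) =
        {(true, true)} := by decide
      rw [this]
      simp [ber]
  rw [e1, e2, Finset.sum_fiberwise]

end

end Pool.Agent.helper64
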