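import Pool.Agent.helper64.Prob

/-!
# Random vertex restrictions of functions of graphs
-/

open Finset

namespace Pool.Agent.helper64

set_option linter.unusedSectionVars false

section

variable {V : Type} [Fintype V] [DecidableEq V]

/-- The set of alive vertices. -/
def al (s : V → Bool) : Finset V := Finset.univ.filter (fun v => s v = true)

theorem mem_al {s : V → Bool} {v : V} : v ∈ al s ↔ s v = true := by simp [al]

/-- Probability for the random pair `(S, B)`: every vertex is put into `S` with probability `p`,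
and `B` is a random `0/1` function on the pairs, with independent values which are `1` with
probability `β`. -/
noncomputable def Pr (β p : ℝ) (Φ : Finset V → (Sym2 V → Bool) → Prop) : ℝ :=
  Ep p (fun s : V → Bool => Ep β (fun B : Sym2 V → Bool => ind (Φ (al s) B)))

theorem Pr_mono {β p : ℝ} (b0 : 0 ≤ β) (b1 : β ≤ 1) (h0 : 0 ≤ p) (h1 : p ≤ 1)
    {Φ Ψ : Finset V → (Sym2 V → Bool) → Prop}
    (h : ∀ S B, Φ S B → Ψ S B) : Pr β p Φ ≤ Pr β p Ψ :=
  Ep_mono h0 h1 fun _ => Ep_mono b0 b1 fun _ => ind_mono (h _ _)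

theorem Pr_nonneg {β p : ℝ} (b0 : 0 ≤ β) (b1 : β ≤ 1) (h0 : 0 ≤ p) (h1 : p ≤ 1)
    (Φ : Finset V → (Sym2 V → Bool) → Prop) : 0 ≤ Pr β p Φ :=
  Ep_nonneg h0 h1 fun _ => Ep_nonneg b0 b1 fun _ => ind_nonneg _

theorem Pr_le_one {β p : ℝ} (b0 : 0 ≤ β) (b1 : β ≤ 1) (h0 : 0 ≤ p) (h1 : p ≤ 1)
    (Φ : Finset V → (Sym2 V → Bool) → Prop) : Pr β p Φ ≤ 1 :=
  Ep_le_one h0 h1 fun _ => Ep_le_one b0 b1 fun _ => ind_le_one _

theorem Pr_false (β p : ℝ) : Pr (V := V) β p (fun _ _ => False) = 0 := by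
  unfold Pr; simp [Ep, ind]

theorem Pr_or {β p : ℝ} (b0 : 0 ≤ β) (b1 : β ≤ 1) (h0 : 0 ≤ p) (h1 : p ≤ 1)
    (Φ Ψ : Finset V → (Sym2 V → Bool) → Prop) :
    Pr β p (fun S B => Φ S B ∨ Ψ S B) ≤ Pr β p Φ + Pr β p Ψ := by
  unfold Pr
  rw [← Ep_add]
  refine Ep_mono h0 h1 fun s => ?_
  rw [← Ep_add]
  refine Ep_mono b0 b1 fun B => ?_
  by_cases ha : Φ (al s) B <;> by_cases hb : Ψ (al s) B <;> simp [ind, ha, hb]

theorem Pr_exists {κ : Type*} {β p : ℝ} (b0 : 0 ≤ β) (b1 : β ≤ 1) (h0 : 0 ≤ p) (h1 : p ≤ 1)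
    (t : Finset κ) (Φ : κ → Finset V → (Sym2 V → Bool) → Prop) :
    Pr β p (fun S B => ∃ j ∈ t, Φ j S B) ≤ ∑ j ∈ t, Pr β p (Φ j) := by
  classical
  induction t using Finset.induction_on with
  | empty => simp [Pr_false]
  | insert a t ha ih =>
    rw [Finset.sum_insert ha]
    refine le_trans ?_ (add_le_add_right ih (Pr β p (Φ a)))
    refine le_trans (Pr_mono b0 b1 h0 h1 ?_) (Pr_or b0 b1 h0 h1 _ _)
    rintro S B ⟨j, hj, hΦ⟩
    rcases Finset.mem_insert.1 hj with rfl | hj
    · exact Or.inl hΦ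
    · exact Or.inr ⟨j, hj, hΦ⟩

theorem al_and (s t : V → Bool) : al (fun i => s i && t i) = al s ∩ al t := by
  ext v; simp [al]

/-- Composition of two restrictions. -/
theorem Pr_comp (β p q : ℝ) (Φ : Finset V → (Sym2 V → Bool) → Prop) :
    Pr β (p * q) Φ = Ep p (fun s : V → Bool => Ep β (fun B : Sym2 V → Bool =>
      Pr β q (fun S' B' => Φ (al s ∩ S') (mrg (al s).sym2 B' B)))) := by
  unfold Pr
  rw [← Ep_and p q]
  congr 1
  funext s
  symm
  rw [Ep_comm β q]
  congr 1
  funext t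
  rw [al_and, Ep_comm β β]
  exact Ep_mrg β (al s).sym2 (fun B => ind (Φ (al s ∩ al t) B))

theorem Pr_two_stage {β p q : ℝ} (b0 : 0 ≤ β) (b1 : β ≤ 1) (hp0 : 0 ≤ p) (hp1 : p ≤ 1)
    (hq0 : 0 ≤ q) (hq1 : q ≤ 1)
    {Bad Φ : Finset V → (Sym2 V → Bool) → Prop} {δ₁ δ₂ : ℝ} (hδ₂ : 0 ≤ δ₂)
    (h1 : Pr β p Bad ≤ δ₁)
    (h2 : ∀ S B, ¬ Bad S B → Pr β q (fun S' B' => Φ (S ∩ S') (mrg S.sym2 B' B)) ≤ δ₂) :
    Pr β (p * q) Φ ≤ δ₁ + δ₂ := by
  rw [Pr_comp]
  calc Ep p (fun s : V → Bool => Ep β (fun B : Sym2 V → Bool =>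
      Pr β q (fun S' B' => Φ (al s ∩ S') (mrg (al s).sym2 B' B))))
      ≤ Ep p (fun s : V → Bool => Ep β (fun B : Sym2 V → Bool =>
        ind (Bad (al s) B) + δ₂)) := by
        refine Ep_mono hp0 hp1 fun s => Ep_mono b0 b1 fun B => ?_
        by_cases hb : Bad (al s) B
        · rw [ind_pos hb]
          have := Pr_le_one b0 b1 hq0 hq1 (fun S' B' => Φ (al s ∩ S') (mrg (al s).sym2 B' B))
          linarith
        · rw [ind_neg hb]
          have := h2 _ _ hb
          linarith
    _ = Pr β p Bad + δ₂ := by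
        simp_rw [Ep_add, Ep_const]
        rfl
    _ ≤ δ₁ + δ₂ := by linarith

/-- Restriction of a function. -/
def rst {β : Type*} (S : Finset V) (B : Sym2 V → Bool) (f : (Sym2 V → Bool) → β) :
    (Sym2 V → Bool) → β := fun x => f (mrg S.sym2 x B)

theorem rst_rst {β : Type*} (S S' : Finset V) (B B' : Sym2 V → Bool) (f : (Sym2 V → Bool) → β) :
    rst S' B' (rst S B f) = rst (S ∩ S') (mrg S.sym2 B' B) f := by
  funext x
  unfold rst
  congr 1
  funext e
  unfold mrg
  by_cases h1 : e ∈ S.sym2 <;> by_cases h2 : e ∈ S'.sym2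
  · have : e ∈ (S ∩ S').sym2 := by
      rw [Finset.mem_sym2_iff] at *
      intro a ha
      exact Finset.mem_inter.2 ⟨h1 a ha, h2 a ha⟩
    simp [h1, h2, this]
  · have : e ∉ (S ∩ S').sym2 := by
      intro h
      apply h2
      rw [Finset.mem_sym2_iff] at *
      intro a ha
      exact (Finset.mem_inter.1 (h a ha)).2
    simp [h1, h2, this]
  · have : e ∉ (S ∩ S').sym2 := by
      intro h
      apply h1
      rw [Finset.mem_sym2_iff] at *
      intro a ha
      exact (Finset.mem_inter.1 (h a ha)).1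
    simp [h1, this]
  · have : e ∉ (S ∩ S').sym2 := by
      intro h
      apply h1
      rw [Finset.mem_sym2_iff] at *
      intro a ha
      exact (Finset.mem_inter.1 (h a ha)).1
    simp [h1, this]

theorem rst_dep {β : Type*} {X : Finset (Sym2 V)} {f : (Sym2 V → Bool) → β} (hf : Dep X f)
    (S : Finset V) (B : Sym2 V → Bool) : Dep X (rst S B f) := by
  intro x y hxy
  refine hf _ _ fun e he => ?_
  unfold mrg
  split_ifs
  · exact hxy e he
  · rfl

theorem rst_dep_inter {β : Type*} {Q : Finset V} {f : (Sym2 V → Bool) → β} (hf : Dep Q.sym2 f)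
    (S : Finset V) (B : Sym2 V → Bool) : Dep (Q ∩ S).sym2 (rst S B f) := by
  intro x y hxy
  refine hf _ _ fun e he => ?_
  unfold mrg
  split_ifs with h
  · apply hxy
    rw [Finset.mem_sym2_iff] at *
    intro a ha
    exact Finset.mem_inter.2 ⟨he a ha, h a ha⟩
  · rfl

theorem Dep.mono {I β : Type*} {X Y : Finset I} {f : (I → Bool) → β} (h : Dep X f)
    (hXY : X ⊆ Y) : Dep Y f := fun x y hxy => h x y fun i hi => hxy i (hXY hi)

theorem sym2_mono' {Q R : Finset V} (h : Q ⊆ R) : Q.sym2 ⊆ R.sym2 := Finset.sym2_mono h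

/-- `f` is an `s`-vertex junta. -/
def IsJ (s : ℕ) (f : (Sym2 V → Bool) → Prop) : Prop :=
  ∃ Q : Finset V, Q.card ≤ s ∧ Dep Q.sym2 f

theorem IsJ.not {s : ℕ} {f : (Sym2 V → Bool) → Prop} (h : IsJ s f) : IsJ s (fun x => ¬ f x) := by
  obtain ⟨Q, hQ, hf⟩ := h
  refine ⟨Q, hQ, fun x y hxy => ?_⟩
  simp only [hf x y hxy]

theorem card_sym2_le (Q : Finset V) {q : ℕ} (hq : Q.card ≤ q) : Q.sym2.card ≤ q ^ 2 := by
  rw [Finset.card_sym2, Nat.choose_two_right]
  have : (Q.card + 1) * (Q.card + 1 - 1) / 2 ≤ Q.card ^ 2 := by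
    rw [Nat.add_sub_cancel]
    apply Nat.div_le_of_le_mul
    nlinarith [Nat.zero_le Q.card, sq_nonneg (Q.card : ℤ), Nat.le_self_pow two_ne_zero Q.card]
  exact this.trans (Nat.pow_le_pow_left hq 2)

/-- Probability that none of many independent events occurs. -/
theorem noEv_bound {ι : Type*} (D : Finset ι) (R : ι → Finset V) (Q : Finset V)
    (hdisj : ∀ i ∈ D, ∀ j ∈ D, i ≠ j → Disjoint (R i) (R j)) {r q : ℕ}
    (hr : ∀ j ∈ D, (R j).card ≤ r)
    (hq : Q.card ≤ q) (π : ι → Sym2 V → Bool) {β p : ℝ} (b0 : 0 ≤ β) (b1 : β ≤ 1 / 2)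
    (hp0 : 0 ≤ p) (hp1 : p ≤ 1 / 2) :
    Pr β p (fun S B => ∀ j ∈ D, ¬ (Disjoint (R j) S ∧
      ∀ e ∈ (Q ∪ R j).sym2 \ Q.sym2, B e = π j e)) ≤
      (1 - (1 / 2 : ℝ) ^ r * β ^ ((q + r) ^ 2)) ^ D.card := by
  classical
  set E : ι → Finset (Sym2 V) := fun j => (Q ∪ R j).sym2 \ Q.sym2 with hE
  have hEcard : ∀ j ∈ D, (E j).card ≤ (q + r) ^ 2 := by
    intro j hj
    refine (Finset.card_le_card Finset.sdiff_subset).trans (card_sym2_le _ ?_)
    exact (Finset.card_union_le _ _).trans (add_le_add hq (hr j hj))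
  have hEdisj : ∀ i ∈ D, ∀ j ∈ D, i ≠ j → Disjoint (E i) (E j) := by
    intro i hi j hj hij
    rw [Finset.disjoint_left]
    intro e he he'
    rw [hE, Finset.mem_sdiff, Finset.mem_sym2_iff, Finset.mem_sym2_iff] at he he'
    apply he.2
    intro a ha
    rcases Finset.mem_union.1 (he.1 a ha) with h | h
    · exact h
    · rcases Finset.mem_union.1 (he'.1 a ha) with h' | h'
      · exact h'
      · exact absurd h' (Finset.disjoint_left.1 (hdisj i hi j hj hij) h)
  set δ : ℝ := β ^ ((q + r) ^ 2) with hδ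
  have hδ0 : 0 ≤ δ := by positivity
  have hδ1 : δ ≤ 1 := pow_le_one₀ b0 (by linarith)
  -- inner expectation
  have inner : ∀ s : V → Bool, Ep β (fun B : Sym2 V → Bool =>
      ind (∀ j ∈ D, ¬ (Disjoint (R j) (al s) ∧ ∀ e ∈ E j, B e = π j e))) ≤
      ∏ j ∈ D, (1 - δ * ind (∀ v ∈ R j, s v = false)) := by
    intro s
    have hc : ∀ j, Disjoint (R j) (al s) ↔ ∀ v ∈ R j, s v = false := by
      intro j
      rw [Finset.disjoint_left]
      refine forall₂_congr fun v _ => ?_
      rw [mem_al]; simp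
    have h1 : (fun B : Sym2 V → Bool =>
      ind (∀ j ∈ D, ¬ (Disjoint (R j) (al s) ∧ ∀ e ∈ E j, B e = π j e))) =
      fun B => ∏ j ∈ D, (1 - ind (∀ v ∈ R j, s v = false) *
        ind (∀ e ∈ E j, B e = π j e)) := by
      funext B
      by_cases h : ∀ j ∈ D, ¬ (Disjoint (R j) (al s) ∧ ∀ e ∈ E j, B e = π j e)
      · rw [ind_pos h, Finset.prod_eq_one]
        intro j hj
        have := h j hj
        rw [hc] at this
        by_cases ha : ∀ v ∈ R j, s v = false
        · have hb : ¬ ∀ e ∈ E j, B e = π j e := fun hb => this ⟨ha, hb⟩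
          rw [ind_neg hb]; ring
        · rw [ind_neg ha]; ring
      · rw [ind_neg h]
        push Not at h
        obtain ⟨j, hj, ha, hb⟩ := h
        rw [hc] at ha
        symm
        apply Finset.prod_eq_zero hj
        rw [ind_pos ha, ind_pos hb]; ring
    rw [h1, Ep_prod_of_dep β D E hEdisj (fun j B =>
      (1 - ind (∀ v ∈ R j, s v = false) * ind (∀ e ∈ E j, B e = π j e)))]
    · refine Finset.prod_le_prod ?_ ?_
      · intro j _
        refine Ep_nonneg b0 (by linarith) fun B => ?_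
        have i1 := ind_le_one (∀ v ∈ R j, s v = false)
        have i2 := ind_le_one (∀ e ∈ E j, B e = π j e)
        have i3 := ind_nonneg (∀ v ∈ R j, s v = false)
        have i4 := ind_nonneg (∀ e ∈ E j, B e = π j e)
        nlinarith
      · intro j hj
        have h2 : (fun B : Sym2 V → Bool => (1 - ind (∀ v ∈ R j, s v = false) *
          ind (∀ e ∈ E j, B e = π j e))) =
          fun B => 1 + (-ind (∀ v ∈ R j, s v = false)) *
          ind (∀ e ∈ E j, B e = π j e) := by funext B; ring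
        rw [h2, Ep_add, Ep_const, Ep_smul, Ep_cylinder]
        have h3 : δ ≤ ∏ e ∈ E j, ber β (π j e) := by
          calc δ ≤ β ^ (E j).card := pow_le_pow_of_le_one b0 (by linarith) (hEcard j hj)
            _ = ∏ e ∈ E j, β := by rw [Finset.prod_const]
            _ ≤ ∏ e ∈ E j, ber β (π j e) := by
                refine Finset.prod_le_prod (fun _ _ => b0) fun e _ => ?_
                unfold ber; split_ifs <;> linarith
        by_cases ha : ∀ v ∈ R j, s v = false
        · rw [ind_pos ha]; linarith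
        · rw [ind_neg ha]; linarith
    · intro j _ x y hxy
      have : (∀ e ∈ E j, x e = π j e) ↔ (∀ e ∈ E j, y e = π j e) :=
        forall₂_congr fun e he => by rw [hxy e he]
      simp only [this]
  have outer : Ep p (fun s : V → Bool => ∏ j ∈ D,
      (1 - δ * ind (∀ v ∈ R j, s v = false))) ≤
      (1 - (1 / 2 : ℝ) ^ r * δ) ^ D.card := by
    rw [Ep_prod_of_dep p D R hdisj (fun j s => (1 - δ * ind (∀ v ∈ R j, s v = false)))]
    · rw [← Finset.prod_const]
      refine Finset.prod_le_prod ?_ ?_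
      · intro j _
        refine Ep_nonneg hp0 (by linarith) fun s => ?_
        have i1 := ind_le_one (∀ v ∈ R j, s v = false)
        have i3 := ind_nonneg (∀ v ∈ R j, s v = false)
        nlinarith
      · intro j hj
        have h2 : (fun s : V → Bool => (1 - δ * ind (∀ v ∈ R j, s v = false))) =
          fun s => 1 + (-δ) * ind (∀ v ∈ R j, s v = false) := by
          funext s; ring
        rw [h2, Ep_add, Ep_const, Ep_smul, Ep_cylinder p (R j) (fun _ => false)]
        have h3 : ∏ v ∈ R j, ber p false = (1 - p) ^ (R j).card := by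
          rw [Finset.prod_const]; simp [ber]
        rw [h3]
        have h4 : (1 / 2 : ℝ) ^ r ≤ (1 - p) ^ (R j).card := by
          calc (1 / 2 : ℝ) ^ r ≤ (1 / 2 : ℝ) ^ (R j).card :=
                pow_le_pow_of_le_one (by norm_num) (by norm_num) (hr j hj)
            _ ≤ (1 - p) ^ (R j).card := pow_le_pow_left₀ (by norm_num) (by linarith) _
        nlinarith
    · intro j _ x y hxy
      have : (∀ v ∈ R j, x v = false) ↔ (∀ v ∈ R j, y v = false) :=
        forall₂_congr fun v hv => by rw [hxy v hv]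
      simp only [this]
  refine le_trans ?_ outer
  unfold Pr
  exact Ep_mono hp0 (by linarith) inner

/-- Few vertices of a small set stay alive. -/
theorem hit_bound (W : Finset V) (m : ℕ) {β p : ℝ} (hp0 : 0 ≤ p) (hp1 : p ≤ 1) :
    Pr β p (fun S _ => m ≤ (W ∩ S).card) ≤ (W.card * p) ^ m := by
  unfold Pr
  simp_rw [Ep_const]
  calc Ep p (fun s : V → Bool => ind (m ≤ (W ∩ al s).card))
      ≤ Ep p (fun s : V → Bool => ∑ U ∈ Finset.powersetCard m W, ind (∀ v ∈ U, s v = true)) := by
        refine Ep_mono hp0 hp1 fun s => ?_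
        by_cases h : m ≤ (W ∩ al s).card
        · obtain ⟨U, hU, hUc⟩ := Finset.exists_subset_card_eq h
          have hUW : U ∈ Finset.powersetCard m W :=
            Finset.mem_powersetCard.2 ⟨hU.trans Finset.inter_subset_left, hUc⟩
          refine le_trans (le_of_eq ?_) (Finset.single_le_sum (f := fun U =>
            ind (∀ v ∈ U, s v = true)) (fun U _ => ind_nonneg _) hUW)
          rw [ind_pos h, ind_pos]
          intro v hv
          exact mem_al.1 (Finset.mem_inter.1 (hU hv)).2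
        · rw [ind_neg h]
          exact Finset.sum_nonneg fun U _ => ind_nonneg _
    _ = ∑ U ∈ Finset.powersetCard m W, p ^ m := by
        rw [Ep_sum]
        refine Finset.sum_congr rfl fun U hU => ?_
        rw [Ep_cylinder p U (fun _ => true)]
        rw [Finset.prod_const, (Finset.mem_powersetCard.1 hU).2]
        simp [ber]
    _ = (W.card.choose m : ℝ) * p ^ m := by
        rw [Finset.sum_const, Finset.card_powersetCard, nsmul_eq_mul]
    _ ≤ (W.card * p) ^ m := by
        rw [mul_pow]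
        refine mul_le_mul_of_nonneg_right ?_ (by positivity)
        exact_mod_cast Nat.choose_le_pow _ _

/-- Greedy alternative: many disjoint sets or a small hitting set. -/
theorem greedy {ι : Type*} (N : Set ι) (R : ι → Finset V) {r : ℕ}
    (hr : ∀ j, (R j).card ≤ r) (hne : ∀ j ∈ N, (R j).Nonempty) (w : ℕ) :
    (∃ D : Finset ι, D.card = w ∧ (∀ j ∈ D, j ∈ N) ∧
      ∀ i ∈ D, ∀ j ∈ D, i ≠ j → Disjoint (R i) (R j)) ∨
    (∃ W : Finset V, W.card ≤ w * r ∧ ∀ j ∈ N, ¬ Disjoint (R j) W) := by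
  classical
  induction w with
  | zero => exact Or.inl ⟨∅, rfl, by simp, by simp⟩
  | succ w ih =>
    rcases ih with ⟨D, hD, hDN, hdis⟩ | ⟨W, hW, hhit⟩
    · by_cases hex : ∃ j ∈ N, Disjoint (R j) (D.biUnion R)
      · obtain ⟨j, hj, hjd⟩ := hex
        left
        have hjD : j ∉ D := by
          intro hjD
          obtain ⟨v, hv⟩ := hne j hj
          exact (Finset.disjoint_left.1 hjd hv) (Finset.mem_biUnion.2 ⟨j, hjD, hv⟩)
        have hjd' : ∀ i ∈ D, Disjoint (R j) (R i) := fun i hi =>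
          Finset.disjoint_of_subset_right (Finset.subset_biUnion_of_mem R hi) hjd
        refine ⟨insert j D, by rw [Finset.card_insert_of_notMem hjD, hD], ?_, ?_⟩
        · intro i hi
          rcases Finset.mem_insert.1 hi with rfl | hi
          · exact hj
          · exact hDN i hi
        · intro i hi i' hi' hne'
          rcases Finset.mem_insert.1 hi with h1 | h1
          · rcases Finset.mem_insert.1 hi' with h2 | h2
            · exact absurd (h1.trans h2.symm) hne'
            · rw [h1]; exact hjd' i' h2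
          · rcases Finset.mem_insert.1 hi' with h2 | h2
            · rw [h2]; exact (hjd' i h1).symm
            · exact hdis i h1 i' h2 hne'
      · right
        push Not at hex
        refine ⟨D.biUnion R, ?_, hex⟩
        calc (D.biUnion R).card ≤ D.card * r :=
              Finset.card_biUnion_le_card_mul D R r (fun i _ => hr i)
          _ ≤ (w + 1) * r := by rw [hD]; exact Nat.mul_le_mul_right r (Nat.le_succ w)
    · exact Or.inr ⟨W, hW.trans (Nat.mul_le_mul_right r (Nat.le_succ w)), hhit⟩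

end

end Pool.Agent.helper64
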